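import Pool.Agent.Lib.KV.B.SpecA

/-!
# KV, part B, block A, module `AdC`: transport of complete fields
-/

set_option autoImplicit false

open Set Filter Topology Metric

namespace KVB

open KP

theorem tAdC : S_AdC := by
  intro V _ _ _ D hD g h X hg hX
  have : CompleteSpace V := FiniteDimensional.complete ℂ V
  obtain ⟨hX1, φ, hφ⟩ := hX
  refine ⟨?_, fun t x => g (φ t (h x)), ?_⟩
  · have h1 : DifferentiableOn ℂ (fun x => fderiv ℂ g (h x)) D :=
      (Pool.Agent.Lib.Osgood.differentiableOn_fderiv hD hg.dg).comp hg.dh hg.mh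
    exact h1.clm_apply (hX1.comp hg.dh hg.mh)
  · refine ⟨fun t => ?_, fun t x hx => ?_, fun x hx => ?_, fun s t x hx => ?_, fun x hx t => ?_⟩
    · exact hg.dg.comp ((hφ.dif t).comp hg.dh hg.mh) (fun x hx => hφ.maps t (hg.mh hx))
    · exact hg.mg (hφ.maps t (hg.mh hx))
    · show g (φ 0 (h x)) = x
      rw [hφ.zero _ (hg.mh hx), hg.gh x hx]
    · show g (φ (s + t) (h x)) = g (φ s (h (g (φ t (h x)))))
      rw [hφ.add s t _ (hg.mh hx), hg.hg _ (hφ.maps t (hg.mh hx))]
    · have hy : φ t (h x) ∈ D := hφ.maps t (hg.mh hx)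
      have h2 : HasFDerivAt g (fderiv ℂ g (φ t (h x))) (φ t (h x)) :=
        ((hg.dg _ hy).differentiableAt (hD.mem_nhds hy)).hasFDerivAt
      have h3 := (h2.restrictScalars ℝ).comp_hasDerivAt t (hφ.der (h x) (hg.mh hx) t)
      have h4 : Ad g h X (g (φ t (h x))) = fderiv ℂ g (φ t (h x)) (X (φ t (h x))) := by
        rw [Ad, hg.hg _ hy]
      show HasDerivAt (fun s => g (φ s (h x))) (Ad g h X (g (φ t (h x)))) t
      rw [h4]
      exact h3

end KVB
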