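import Pool.Agent.Lib.KV.B.SpecA

/-!
# KV, part B, block A, module `AdD`: the derivative of the transport by a flow
-/

set_option autoImplicit false

open Set Filter Topology Metric

namespace KVB

open KP

theorem tAdD (h1 : S_FlB) : S_AdD := by
  intro V _ _ _ D hH X Y φ hX hY hφ x hx
  have : CompleteSpace V := FiniteDimensional.complete ℂ V
  have : ProperSpace V := FiniteDimensional.proper ℂ V
  have hD : IsOpen D := hH.opn
  obtain ⟨-, hb, -⟩ := h1 V D hH X φ hX hφ
  -- a ball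
  obtain ⟨r, hr, hrD⟩ : ∃ r > 0, closedBall x (2 * r) ⊆ D := by
    obtain ⟨R, hR, hRD⟩ := Metric.isOpen_iff.1 hD x hx
    refine ⟨R / 4, by positivity, fun y hy => hRD ?_⟩
    rw [mem_closedBall] at hy
    rw [mem_ball]
    linarith
  obtain ⟨C, hC⟩ := hb (closedBall x (2 * r)) hrD (isCompact_closedBall _ _)
  have hYd : DifferentiableAt ℂ Y x := (hY x hx).differentiableAt (hD.mem_nhds hx)
  -- the path
  have hy : HasDerivAt (fun s : ℝ => φ (-s) x) (-(X x)) 0 := by
    have h2 := hφ.der x hx (-0)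
    have h3 := h2.scomp (0 : ℝ) (hasDerivAt_neg (0 : ℝ))
    rw [neg_zero, hφ.zero x hx, neg_smul, one_smul] at h3
    exact h3
  have hy0 : φ (-0) x = x := by rw [neg_zero, hφ.zero x hx]
  have hyc : Tendsto (fun s : ℝ => φ (-s) x) (𝓝 0) (𝓝 x) := by
    have := hy.continuousAt.tendsto
    simpa only [hy0] using this
  -- first part
  have hA : HasDerivAt (fun s : ℝ => Y (φ (-s) x)) (fderiv ℂ Y x (-(X x))) 0 := by
    have h2 : HasFDerivAt Y (fderiv ℂ Y x) (φ (-0) x) := by
      rw [hy0]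
      exact hYd.hasFDerivAt
    exact (h2.restrictScalars ℝ).comp_hasDerivAt (0 : ℝ) hy
  -- second part
  have hG : Tendsto (fun s : ℝ => fderiv ℂ X (φ (-s) x) (Y (φ (-s) x))) (𝓝 0)
      (𝓝 (fderiv ℂ X x (Y x))) := by
    have h2 : ContinuousAt (fderiv ℂ X) x :=
      (Pool.Agent.Lib.Osgood.continuousOn_fderiv hD hX).continuousAt (hD.mem_nhds hx)
    have h3 : Continuous fun p : (V →L[ℂ] V) × V => p.1 p.2 :=
      isBoundedBilinearMap_apply.continuous
    exact (h3.tendsto (fderiv ℂ X x, Y x)).comp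
      ((h2.tendsto.comp hyc).prodMk_nhds (hYd.continuousAt.tendsto.comp hyc))
  have hB : HasDerivAt (fun s : ℝ => s • fderiv ℂ X (φ (-s) x) (Y (φ (-s) x)))
      (fderiv ℂ X x (Y x)) 0 := by
    rw [hasDerivAt_iff_tendsto_slope]
    have h2 : Tendsto (fun s : ℝ => fderiv ℂ X (φ (-s) x) (Y (φ (-s) x))) (𝓝[≠] 0)
      (𝓝 (fderiv ℂ X x (Y x))) := hG.mono_left nhdsWithin_le_nhds
    refine h2.congr' ?_
    filter_upwards [self_mem_nhdsWithin] with s hs
    have hs' : s ≠ 0 := hs
    rw [slope_def_module, sub_zero, zero_smul, sub_zero, smul_smul, inv_mul_cancel₀ hs', one_smul]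
  -- third part
  have hE : HasDerivAt (fun s : ℝ => fderiv ℂ (φ s) (φ (-s) x) (Y (φ (-s) x)) -
      Y (φ (-s) x) - s • fderiv ℂ X (φ (-s) x) (Y (φ (-s) x))) (0 : V) 0 := by
    have hO : (fun s : ℝ => fderiv ℂ (φ s) (φ (-s) x) (Y (φ (-s) x)) -
      Y (φ (-s) x) - s • fderiv ℂ X (φ (-s) x) (Y (φ (-s) x))) =O[𝓝 0]
        fun s : ℝ => ‖s - 0‖ ^ 2 := by
      have e1 : ∀ᶠ s : ℝ in 𝓝 0, φ (-s) x ∈ ball x r := hyc (ball_mem_nhds x hr)
      have e2 : ∀ᶠ s : ℝ in 𝓝 0, |s| ≤ 1 := by
        have : Tendsto (fun s : ℝ => |s|) (𝓝 0) (𝓝 |0|) := continuous_abs.tendsto 0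
        rw [abs_zero] at this
        filter_upwards [this.eventually (gt_mem_nhds (one_pos))] with s hs
        exact hs.le
      have e3 : ∀ᶠ s : ℝ in 𝓝 0, ‖Y (φ (-s) x)‖ ≤ ‖Y x‖ + 1 := by
        have := (hYd.continuousAt.tendsto.comp hyc).norm
        filter_upwards [this.eventually (gt_mem_nhds (lt_add_one ‖Y x‖))] with s hs
        exact hs.le
      refine Asymptotics.IsBigO.of_bound (|C| / r * (‖Y x‖ + 1)) ?_
      filter_upwards [e1, e2, e3] with s h1 h2 h3
      set y := φ (-s) x with hydef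
      have hyD : y ∈ D := hrD (closedBall_subset_closedBall (by linarith)
        (ball_subset_closedBall h1))
      have hφd : DifferentiableAt ℂ (φ s) y := (hφ.dif s y hyD).differentiableAt
        (hD.mem_nhds hyD)
      have hXd : DifferentiableAt ℂ X y := (hX y hyD).differentiableAt (hD.mem_nhds hyD)
      have hEd : DifferentiableOn ℂ (fun z => φ s z - z - (s : ℂ) • X z) (ball x (2 * r)) := by
        have h4 : ball x (2 * r) ⊆ D := ball_subset_closedBall.trans hrD
        exact (((hφ.dif s).mono h4).sub differentiableOn_id).sub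
          ((hX.mono h4).const_smul (s : ℂ))
      have hEb : ∀ z ∈ ball x (2 * r), ‖φ s z - z - (s : ℂ) • X z‖ ≤ |C| * s ^ 2 := by
        intro z hz
        rw [Complex.coe_smul]
        refine (hC s h2 z (ball_subset_closedBall hz)).trans ?_
        exact mul_le_mul_of_nonneg_right (le_abs_self C) (sq_nonneg s)
      have h5 := Pool.Agent.Lib.Osgood.norm_fderiv_le' (r := r) (by linarith) hEd hEb
        (ball_subset_closedBall h1)
      have h6 : fderiv ℂ (fun z => φ s z - z - (s : ℂ) • X z) y =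
          fderiv ℂ (φ s) y - ContinuousLinearMap.id ℂ V - (s : ℂ) • fderiv ℂ X y := by
        have h7 : HasFDerivAt (fun z => φ s z - z - (s : ℂ) • X z)
          (fderiv ℂ (φ s) y - ContinuousLinearMap.id ℂ V - (s : ℂ) • fderiv ℂ X y) y :=
          (hφd.hasFDerivAt.sub (hasFDerivAt_id y)).sub (hXd.hasFDerivAt.const_smul (s : ℂ))
        exact h7.fderiv
      have h8 : fderiv ℂ (φ s) y (Y y) - Y y - s • fderiv ℂ X y (Y y) =
          (fderiv ℂ (fun z => φ s z - z - (s : ℂ) • X z) y) (Y y) := by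
        rw [h6]
        simp only [sub_apply, ContinuousLinearMap.id_apply,
          smul_apply, Complex.coe_smul]
      rw [h8]
      refine (ContinuousLinearMap.le_opNorm _ _).trans ?_
      rw [sub_zero, Real.norm_of_nonneg (by positivity), Real.norm_eq_abs, sq_abs]
      have h9 : 2 * r - r = r := by ring
      rw [h9] at h5
      calc ‖fderiv ℂ (fun z => φ s z - z - (s : ℂ) • X z) y‖ * ‖Y y‖
          ≤ (|C| * s ^ 2 / r) * (‖Y x‖ + 1) := by
            refine mul_le_mul h5 h3 (norm_nonneg _) (by positivity)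
        _ = |C| / r * (‖Y x‖ + 1) * s ^ 2 := by ring
    exact (hO.hasFDerivAt one_lt_two).hasDerivAt
  have hsum := (hA.add hB).add hE
  have hval : fderiv ℂ Y x (-(X x)) + fderiv ℂ X x (Y x) + 0 = -(Br X Y x) := by
    rw [Br, map_neg]
    abel
  rw [hval] at hsum
  refine hsum.congr_of_eventuallyEq (Eventually.of_forall fun s => ?_)
  show Ad (φ s) (φ (-s)) Y x = _
  simp only [Ad, Pi.add_apply]
  abel

end KVB
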