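import Pool.Agent.Lib.KV.B.SpecA

/-!
# KV, part B, block A: Cartan's uniqueness theorem for complete fields
-/

set_option autoImplicit false

open Set Filter Topology Metric

namespace KVB

open KP

theorem tCUf (h1 : S_Iso) (h2 : S_CUm) : S_CUf := by
  intro V _ _ _ D hD X hX p hp hXp hdX x hx
  obtain ⟨hXd, φ, hφ⟩ := hX
  obtain ⟨hfix, hexp, -⟩ := h1 V D hD X φ hXd hφ p hp hXp
  have hid : ∀ t : ℝ, φ t x = x := by
    intro t
    refine h2 V D hD (φ t) (hφ.dif t) (hφ.maps t) p hp (hfix t) ?_ x hx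
    rw [hexp t, hdX, smul_zero, NormedSpace.exp_zero]
    rfl
  have h3 := hφ.der x hx 0
  rw [hid 0] at h3
  have h4 : (fun s => φ s x) = fun _ : ℝ => x := funext hid
  rw [h4] at h3
  exact h3.unique (hasDerivAt_const (0 : ℝ) x)

end KVB
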