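import Pool.Agent.Lib.KV.B.SpecA

set_option autoImplicit false

open Set Filter Topology Metric

namespace KVB

open KP

namespace CUmAux

open Asymptotics

variable {V : Type} [NormedAddCommGroup V] [NormedSpace ℂ V]

private theorem zero_of_littleO {E : Type} [NormedAddCommGroup E] {F : E → V} {p : E} {k : ℕ}
    (h : F =o[𝓝 p] fun y => ‖y - p‖ ^ k) : F p = 0 := by
  by_contra hne
  have hpos : 0 < ‖F p‖ := norm_pos_iff.2 hne
  have h1 := (h.def (half_pos hpos)).self_of_nhds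
  rw [sub_self, norm_zero] at h1
  have h2 : ‖(0 : ℝ) ^ k‖ ≤ 1 := by
    rw [norm_pow, norm_zero]
    exact pow_le_one₀ le_rfl zero_le_one
  nlinarith

private theorem dslope_bd [CompleteSpace V] {f : ℂ → V} {R M : ℝ}
    (hd : DifferentiableOn ℂ f (ball 0 R)) (hM : ∀ z ∈ ball (0 : ℂ) R, ‖f z‖ ≤ M) (h0 : f 0 = 0)
    {z : ℂ} (hz : z ∈ ball (0 : ℂ) R) : ‖dslope f 0 z‖ ≤ M / R := by
  have h1 : MapsTo f (ball 0 R) (closedBall (f 0) M) := by
    intro w hw
    rw [h0, mem_closedBall, dist_zero_right]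
    exact hM w hw
  exact Complex.norm_dslope_le_div_of_mapsTo_ball hd h1 hz

private theorem schw [CompleteSpace V] (k : ℕ) : ∀ (f : ℂ → V) (R M : ℝ), 0 < R →
    DifferentiableOn ℂ f (ball 0 R) → (∀ z ∈ ball (0 : ℂ) R, ‖f z‖ ≤ M) →
    (f =o[𝓝 0] fun z : ℂ => ‖z - 0‖ ^ k) →
    ∀ z ∈ ball (0 : ℂ) R, ‖f z‖ ≤ M * (‖z‖ / R) ^ (k + 1) := by
  induction k with
  | zero =>
    intro f R M hR hd hM ho z hz
    have h0 := zero_of_littleO ho
    have h1 := dslope_bd hd hM h0 hz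
    have h2 := sub_smul_dslope f 0 z
    rw [h0, sub_zero, sub_zero] at h2
    rw [← h2, norm_smul]
    calc ‖z‖ * ‖dslope f 0 z‖ ≤ ‖z‖ * (M / R) := mul_le_mul_of_nonneg_left h1 (norm_nonneg _)
      _ = M * (‖z‖ / R) ^ (0 + 1) := by ring
  | succ k ih =>
    intro f R M hR hd hM ho z hz
    have h0 := zero_of_littleO ho
    have hd1 : DifferentiableOn ℂ (dslope f 0) (ball 0 R) :=
      (Complex.differentiableOn_dslope (ball_mem_nhds 0 hR)).2 hd
    have hcont : ContinuousAt (dslope f 0) 0 :=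
      (hd1 0 (mem_ball_self hR)).continuousWithinAt.continuousAt (ball_mem_nhds 0 hR)
    have hsl : ∀ w : ℂ, w • dslope f 0 w = f w := by
      intro w
      have h2 := sub_smul_dslope f 0 w
      rw [h0, sub_zero, sub_zero] at h2
      exact h2
    have ho1 : dslope f 0 =o[𝓝 0] fun z : ℂ => ‖z - 0‖ ^ k := by
      rw [isLittleO_iff]
      intro ε hε
      have h1 := ho.def hε
      have h2 : ∀ᶠ w in 𝓝[≠] (0 : ℂ), ‖dslope f 0 w‖ ≤ ε * ‖‖w - 0‖ ^ k‖ := by
        filter_upwards [nhdsWithin_le_nhds h1, self_mem_nhdsWithin] with w hw hw0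
        have hw0' : 0 < ‖w‖ := norm_pos_iff.2 hw0
        rw [← hsl w, norm_smul, sub_zero, norm_pow, norm_norm, pow_succ] at hw
        rw [sub_zero, norm_pow, norm_norm]
        have h3 : ‖w‖ * ‖dslope f 0 w‖ ≤ ‖w‖ * (ε * ‖w‖ ^ k) := by
          calc ‖w‖ * ‖dslope f 0 w‖ ≤ ε * (‖w‖ ^ k * ‖w‖) := hw
            _ = ‖w‖ * (ε * ‖w‖ ^ k) := by ring
        exact le_of_mul_le_mul_left h3 hw0'
      have h4 : ‖dslope f 0 (0 : ℂ)‖ ≤ ε * ‖‖(0 : ℂ) - 0‖ ^ k‖ := by
        have h5 : Tendsto (fun w : ℂ => ‖dslope f 0 w‖) (𝓝[≠] 0) (𝓝 ‖dslope f 0 (0 : ℂ)‖) :=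
          hcont.norm.tendsto.mono_left nhdsWithin_le_nhds
        have h6 : Tendsto (fun w : ℂ => ε * ‖‖w - 0‖ ^ k‖) (𝓝[≠] 0)
            (𝓝 (ε * ‖‖(0 : ℂ) - 0‖ ^ k‖)) := by
          have h7 : Continuous fun w : ℂ => ε * ‖‖w - 0‖ ^ k‖ := by fun_prop
          exact (h7.tendsto 0).mono_left nhdsWithin_le_nhds
        exact le_of_tendsto_of_tendsto h5 h6 h2
      filter_upwards [eventually_nhdsWithin_iff.1 h2] with w hw
      by_cases hw0 : w = 0
      · rw [hw0]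
        exact h4
      · exact hw hw0
    have h1 := ih (dslope f 0) R (M / R) hR hd1 (fun w hw => dslope_bd hd hM h0 hw) ho1 z hz
    rw [← hsl z, norm_smul]
    calc ‖z‖ * ‖dslope f 0 z‖ ≤ ‖z‖ * (M / R * (‖z‖ / R) ^ (k + 1)) :=
          mul_le_mul_of_nonneg_left h1 (norm_nonneg _)
      _ = M * (‖z‖ / R) ^ (k + 1 + 1) := by rw [pow_succ (‖z‖ / R) (k + 1)]; ring

private theorem schV [CompleteSpace V] {F : V → V} {p : V} {ρ M : ℝ} {k : ℕ} (hρ : 0 < ρ)
    (hd : DifferentiableOn ℂ F (ball p ρ)) (hM : ∀ y ∈ ball p ρ, ‖F y‖ ≤ M)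
    (ho : F =o[𝓝 p] fun y => ‖y - p‖ ^ k) :
    ∀ y ∈ ball p ρ, ‖F y‖ ≤ M * (‖y - p‖ / ρ) ^ (k + 1) := by
  intro y hy
  rcases eq_or_ne y p with rfl | hne
  · rw [zero_of_littleO ho, sub_self, norm_zero, zero_div,
      zero_pow (Nat.succ_ne_zero k), mul_zero]
  set v : V := y - p with hv
  have hv0 : 0 < ‖v‖ := norm_pos_iff.2 (sub_ne_zero.2 hne)
  have hvρ : ‖v‖ < ρ := by
    rw [hv, ← dist_eq_norm]
    exact hy
  have hmem : ∀ s ∈ ball (0 : ℂ) (ρ / ‖v‖), p + s • v ∈ ball p ρ := by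
    intro s hs
    rw [mem_ball, dist_zero_right, lt_div_iff₀ hv0] at hs
    rw [mem_ball, dist_self_add_left, norm_smul]
    exact hs
  have h1 : (fun s : ℂ => F (p + s • v)) =o[𝓝 0] fun s : ℂ => ‖s - 0‖ ^ k := by
    have ht : Tendsto (fun s : ℂ => p + s • v) (𝓝 0) (𝓝 p) := by
      have : Continuous fun s : ℂ => p + s • v := by fun_prop
      have h := this.tendsto 0
      rwa [zero_smul, add_zero] at h
    have h2 := ho.comp_tendsto ht
    refine h2.trans_isBigO ?_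
    refine IsBigO.of_bound (‖v‖ ^ k) (Eventually.of_forall fun s => ?_)
    simp only [Function.comp_apply]
    rw [add_sub_cancel_left, norm_smul, sub_zero, norm_pow, norm_mul, norm_norm, norm_norm,
      norm_pow, norm_norm, mul_pow, mul_comm]
  have h3 := schw k (fun s : ℂ => F (p + s • v)) (ρ / ‖v‖) M (by positivity)
    (Pool.Agent.Lib.Osgood.line_differentiableOn hd isOpen_ball p v hmem)
    (fun s hs => hM _ (hmem s hs)) h1 1 (by
      rw [mem_ball, dist_zero_right, norm_one, lt_div_iff₀ hv0, one_mul]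
      exact hvρ)
  simp only [one_smul, norm_one] at h3
  have h4 : p + v = y := by rw [hv]; abel
  rw [h4] at h3
  have h5 : 1 / (ρ / ‖v‖) = ‖v‖ / ρ := by
    rw [one_div_div]
  rw [h5] at h3
  exact h3

private theorem iter_exp {g : V → V} {p : V} {k : ℕ} (hgp : g p = p)
    (hc : ∀ n : ℕ, ContinuousAt g^[n] p)
    (hst : HasStrictFDerivAt (fun y => g y - y) (0 : V →L[ℂ] V) p)
    (hO : (fun y => g y - y) =O[𝓝 p] fun y => ‖y - p‖ ^ k) (n : ℕ) :
    (fun y => g^[n] y - y - (n : ℂ) • (g y - y)) =o[𝓝 p] fun y => ‖y - p‖ ^ k := by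
  induction n with
  | zero =>
    refine (isLittleO_zero _ _).congr_left fun y => ?_
    simp
  | succ n ih =>
    have hfix : g^[n] p = p := Function.iterate_fixed hgp n
    have hE : (fun y => g^[n] y - y) =O[𝓝 p] fun y => ‖y - p‖ ^ k := by
      refine (ih.isBigO.add (hO.const_smul_left (n : ℂ))).congr_left fun y => ?_
      simp only [Pi.smul_apply]
      abel
    have ht : Tendsto (fun y => (g^[n] y, y)) (𝓝 p) (𝓝 (p, p)) := by
      have h1 : Tendsto g^[n] (𝓝 p) (𝓝 p) := by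
        have := (hc n).tendsto
        rwa [hfix] at this
      exact h1.prodMk_nhds tendsto_id
    have h2 := (hst.isLittleO.comp_tendsto ht).trans_isBigO
      (show ((fun q : V × V => q.1 - q.2) ∘ fun y => (g^[n] y, y)) =O[𝓝 p]
        fun y => ‖y - p‖ ^ k from hE)
    refine (ih.add h2).congr_left fun y => ?_
    simp only [Function.comp_apply, ContinuousLinearMap.zero_apply, sub_zero]
    rw [Function.iterate_succ_apply', Nat.cast_succ, add_smul, one_smul]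
    abel

private theorem step [CompleteSpace V] {g : V → V} {p : V} {m : ℕ} {ρ M : ℝ} (hρ : 0 < ρ)
    (hgp : g p = p) (hd : ∀ n : ℕ, DifferentiableOn ℂ g^[n] (ball p ρ))
    (hM : ∀ (n : ℕ), ∀ y ∈ ball p ρ, ‖g^[n] y - y‖ ≤ M)
    (hst : HasStrictFDerivAt (fun y => g y - y) (0 : V →L[ℂ] V) p)
    (ho : (fun y => g y - y) =o[𝓝 p] fun y => ‖y - p‖ ^ m) :
    (fun y => g y - y) =o[𝓝 p] fun y => ‖y - p‖ ^ (m + 1) := by
  have hc : ∀ n : ℕ, ContinuousAt g^[n] p := fun n =>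
    (hd n p (mem_ball_self hρ)).continuousWithinAt.continuousAt (ball_mem_nhds p hρ)
  have hM0 : 0 ≤ M := (norm_nonneg _).trans (hM 0 p (mem_ball_self hρ))
  have hdn : ∀ n : ℕ, DifferentiableOn ℂ (fun y => g^[n] y - y) (ball p ρ) := fun n =>
    (hd n).sub differentiableOn_id
  have hG := schV hρ (hdn 1) (hM 1) ho
  have hO : (fun y => g y - y) =O[𝓝 p] fun y => ‖y - p‖ ^ (m + 1) := by
    refine IsBigO.of_bound (M / ρ ^ (m + 1)) ?_
    filter_upwards [ball_mem_nhds p hρ] with y hy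
    refine (hG y hy).trans (le_of_eq ?_)
    rw [norm_pow, norm_norm, div_pow]
    ring
  rw [isLittleO_iff]
  intro ε hε
  obtain ⟨n, hn⟩ := exists_nat_gt ((M / ρ ^ (m + 1) + 1) / ε)
  have hCpos : 0 < M / ρ ^ (m + 1) + 1 := by positivity
  have hn0 : (0 : ℝ) < n := lt_trans (by positivity) hn
  have h1 := iter_exp hgp hc hst hO n
  have hEO : (fun y => g^[n] y - y) =O[𝓝 p] fun y => ‖y - p‖ ^ (m + 1) := by
    refine (h1.isBigO.add (hO.const_smul_left (n : ℂ))).congr_left fun y => ?_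
    simp only [Pi.smul_apply]
    abel
  have hlit : (fun y : V => ‖y - p‖ ^ (m + 1)) =o[𝓝 p] fun y : V => ‖y - p‖ ^ m := by
    rw [isLittleO_iff]
    intro c hcpos
    filter_upwards [ball_mem_nhds p hcpos] with y hy
    rw [mem_ball, dist_eq_norm] at hy
    rw [norm_pow, norm_pow, norm_norm, pow_succ, mul_comm]
    exact mul_le_mul_of_nonneg_right hy.le (by positivity)
  have h2 := schV hρ (hdn n) (hM n) (hEO.trans_isLittleO hlit)
  filter_upwards [h1.def one_pos, ball_mem_nhds p hρ] with y hy1 hy2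
  have h3 := h2 y hy2
  rw [norm_pow, norm_norm] at hy1 ⊢
  have h4 : ‖(n : ℂ) • (g y - y)‖ ≤ ‖g^[n] y - y‖ + ‖g^[n] y - y - (n : ℂ) • (g y - y)‖ := by
    have h5 : (n : ℂ) • (g y - y) = (g^[n] y - y) - (g^[n] y - y - (n : ℂ) • (g y - y)) := by
      abel
    calc ‖(n : ℂ) • (g y - y)‖ = ‖(g^[n] y - y) - (g^[n] y - y - (n : ℂ) • (g y - y))‖ := by
          rw [← h5]
      _ ≤ _ := norm_sub_le _ _
  rw [norm_smul, Complex.norm_natCast] at h4
  have h6 : M * (‖y - p‖ / ρ) ^ (m + 1) = M / ρ ^ (m + 1) * ‖y - p‖ ^ (m + 1) := by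
    rw [div_pow]
    ring
  rw [h6] at h3
  have h7 : (n : ℝ) * ‖g y - y‖ ≤ (M / ρ ^ (m + 1) + 1) * ‖y - p‖ ^ (m + 1) := by linarith
  have h8 : M / ρ ^ (m + 1) + 1 ≤ n * ε := by
    rw [div_lt_iff₀ hε] at hn
    exact hn.le
  have h9 : (n : ℝ) * ‖g y - y‖ ≤ n * (ε * ‖y - p‖ ^ (m + 1)) := by
    calc (n : ℝ) * ‖g y - y‖ ≤ (M / ρ ^ (m + 1) + 1) * ‖y - p‖ ^ (m + 1) := h7
      _ ≤ n * ε * ‖y - p‖ ^ (m + 1) := mul_le_mul_of_nonneg_right h8 (by positivity)
      _ = n * (ε * ‖y - p‖ ^ (m + 1)) := by ring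
  exact le_of_mul_le_mul_left h9 hn0

end CUmAux

theorem tCUm (h2 : S_CdB) : S_CUm := by
  intro V _ _ _ D hy g hg hmaps p hp hgp hder
  have hD := hy.opn
  have : CompleteSpace V := FiniteDimensional.complete ℂ V
  obtain ⟨r0, hr0, hbc⟩ := hy.bc
  obtain ⟨Q', hQ'D, hQ'c, hQ'⟩ := hbc {p} (singleton_subset_iff.2 hp) isCompact_singleton
  obtain ⟨r, hr, hrD⟩ := Metric.isOpen_iff.1 hD p hp
  obtain ⟨_, _, hinv, hlip, _⟩ := h2 V D hD
  obtain ⟨M0, hM0⟩ := hQ'c.isBounded.exists_norm_le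
  set ρ : ℝ := min (r / 2) (r0 * r / 2) with hρ
  have hρ0 : 0 < ρ := lt_min (by linarith) (by positivity)
  have hsub : ball p ρ ⊆ D := by
    refine (ball_subset_ball ?_).trans hrD
    have := min_le_left (r / 2) (r0 * r / 2)
    linarith
  have hdn : ∀ n : ℕ, DifferentiableOn ℂ g^[n] D := fun n => hg.iterate hmaps n
  have hfix : ∀ n : ℕ, g^[n] p = p := fun n => Function.iterate_fixed hgp n
  have hbd : ∀ (n : ℕ), ∀ y ∈ ball p ρ, ‖g^[n] y - y‖ ≤ M0 + (‖p‖ + ρ) := by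
    intro n y hy'
    have hyD := hsub hy'
    have hn : ‖p - y‖ < ρ := by
      rw [← dist_eq_norm, dist_comm]
      exact hy'
    have h3 : cd D p y ≤ r0 := by
      have h4 := hlip p r hr hrD p (mem_ball_self (by linarith)) y
        (ball_subset_ball (min_le_left _ _) hy')
      have h5 : 2 / r * ‖p - y‖ ≤ 2 / r * (r0 * r / 2) := by
        refine mul_le_mul_of_nonneg_left (hn.le.trans (min_le_right _ _)) (by positivity)
      have h6 : 2 / r * (r0 * r / 2) = r0 := by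
        field_simp
      linarith
    have h7 := hinv g^[n] (hdn n) (hmaps.iterate n) p hp y hyD
    rw [hfix n] at h7
    have h8 := hM0 _ (hQ' p (mem_singleton p) _ (hmaps.iterate n hyD) (h7.trans h3))
    have h9 : ‖y‖ ≤ ‖p‖ + ρ := by
      have h10 : ‖y‖ ≤ ‖p‖ + ‖y - p‖ := by
        calc ‖y‖ = ‖p + (y - p)‖ := by congr 1; abel
          _ ≤ _ := norm_add_le _ _
      rw [norm_sub_rev] at hn
      linarith
    exact (norm_sub_le _ _).trans (add_le_add h8 h9)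
  have hst : HasStrictFDerivAt (fun y => g y - y) (0 : V →L[ℂ] V) p := by
    have h1 : AnalyticAt ℂ g p := Pool.Agent.Lib.Osgood.analyticOnNhd hD hg p hp
    have h3 := h1.hasStrictFDerivAt
    rw [hder] at h3
    have h4 := h3.sub (hasStrictFDerivAt_id p)
    rwa [sub_self] at h4
  have hbase : (fun y => g y - y) =o[𝓝 p] fun y => ‖y - p‖ ^ 1 := by
    have h1 := hst.hasFDerivAt.isLittleO
    refine (h1.congr_left fun y => ?_).trans_isBigO ?_
    · simp only [ContinuousLinearMap.zero_apply, sub_zero]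
      rw [hgp, sub_self, sub_zero]
    · refine Asymptotics.IsBigO.of_bound 1 (Eventually.of_forall fun y => ?_)
      rw [pow_one, norm_norm, one_mul]
  have hall : ∀ m : ℕ, (fun y => g y - y) =o[𝓝 p] fun y => ‖y - p‖ ^ (m + 1) := by
    intro m
    induction m with
    | zero => exact hbase
    | succ m ih => exact CUmAux.step hρ0 hgp (fun n => (hdn n).mono hsub) hbd hst ih
  have hnear : ∀ y ∈ ball p ρ, g y = y := by
    intro y hy'
    have hlt : ‖y - p‖ / ρ < 1 := by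
      rw [div_lt_one hρ0, ← dist_eq_norm]
      exact hy'
    have hnn : 0 ≤ ‖y - p‖ / ρ := by positivity
    have h1 : ∀ m : ℕ, ‖g y - y‖ ≤ (M0 + (‖p‖ + ρ)) * (‖y - p‖ / ρ) ^ (m + 1 + 1) := fun m =>
      CUmAux.schV hρ0 ((hg.mono hsub).sub differentiableOn_id) (hbd 1) (hall m) y hy'
    have h3 : Tendsto (fun m : ℕ => (M0 + (‖p‖ + ρ)) * (‖y - p‖ / ρ) ^ (m + 1 + 1)) atTop
        (𝓝 ((M0 + (‖p‖ + ρ)) * 0)) := by
      refine Tendsto.const_mul _ ?_
      exact (tendsto_pow_atTop_nhds_zero_of_lt_one hnn hlt).comp (tendsto_add_atTop_nat 2)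
    rw [mul_zero] at h3
    have h4 : ‖g y - y‖ ≤ 0 := ge_of_tendsto' h3 h1
    exact sub_eq_zero.1 (norm_le_zero_iff.1 h4)
  have h5 : EqOn g id D := by
    refine AnalyticOnNhd.eqOn_of_preconnected_of_eventuallyEq
      (Pool.Agent.Lib.Osgood.analyticOnNhd hD hg) (analyticOnNhd_id) hy.conn hp ?_
    filter_upwards [ball_mem_nhds p hρ0] with y hy'
    exact hnear y hy'
  exact fun x hx => h5 hx

end KVB
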