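import Pool.Agent.Lib.KV.B.SpecA

/-!
# KV (MP_64edc4_ag), part B, block A, module CdB: basic properties of the invariant distance
-/

set_option autoImplicit false

open Set Filter Topology Metric

namespace KVB

open KP

private lemma cdb_comm {V : Type} [NormedAddCommGroup V] [NormedSpace ℂ V] (D : Set V)
    (x y : V) : cd D x y = cd D y x := by
  unfold cd
  congr 1
  refine image_congr fun f _ => norm_sub_rev _ _

private lemma cdb_lip {V : Type} [NormedAddCommGroup V] [NormedSpace ℂ V] {D : Set V}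
    {x : V} {r : ℝ} (hr : 0 < r) (hb : ball x r ⊆ D) {y z : V} (hy : y ∈ ball x (r / 2))
    (hz : z ∈ ball x (r / 2)) : cd D y z ≤ 2 / r * ‖y - z‖ := by
  refine cd_le fun f hf => ?_
  have h1 : ∀ u ∈ ball x (r / 2), DifferentiableAt ℂ f u := fun u hu =>
    ((hf.1.mono hb) u (ball_subset_ball (by linarith) hu)).differentiableAt
      (isOpen_ball.mem_nhds (ball_subset_ball (by linarith) hu))
  have h2 : ∀ u ∈ ball x (r / 2), ‖fderiv ℂ f u‖ ≤ 2 / r := by
    intro u hu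
    have := Pool.Agent.Lib.Osgood.norm_fderiv_le' (r := r / 2) (by linarith) (hf.1.mono hb)
      (fun w hw => hf.2 w (hb hw)) (ball_subset_closedBall hu)
    refine this.trans (le_of_eq ?_)
    field_simp
    norm_num
  exact Convex.norm_image_sub_le_of_norm_fderiv_le (𝕜 := ℂ) (s := ball x (r / 2)) h1 h2
    (convex_ball x (r / 2)) hz hy

theorem tCdB : S_CdB := by
  intro V _ _ D hD
  have h0 : ∀ x ∈ D, ∀ y ∈ D, 0 ≤ cd D x y := fun x hx y hy => by
    have := le_cd hx hy (zero_mem_UF (D := D))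
    simpa using this
  have htri : ∀ x ∈ D, ∀ y ∈ D, ∀ z ∈ D, cd D x z ≤ cd D x y + cd D y z := by
    intro x hx y hy z hz
    refine cd_le fun f hf => ?_
    calc ‖f x - f z‖ ≤ ‖f x - f y‖ + ‖f y - f z‖ := norm_sub_le_norm_sub_add_norm_sub _ _ _
      _ ≤ _ := add_le_add (le_cd hx hy hf) (le_cd hy hz hf)
  refine ⟨fun x hx y hy => ⟨h0 x hx y hy, ?_, cdb_comm D x y, ?_⟩, htri, ?_, ?_, ?_⟩
  · refine cd_le fun f hf => ?_
    calc ‖f x - f y‖ ≤ ‖f x‖ + ‖f y‖ := norm_sub_le _ _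
      _ ≤ 1 + 1 := add_le_add (hf.2 x hx) (hf.2 y hy)
      _ = 2 := by norm_num
  · refine le_antisymm (cd_le fun f _ => by simp) (h0 x hx x hx)
  · intro g hg hm x hx y hy
    refine cd_le fun f hf => ?_
    exact le_cd hx hy (f := f ∘ g) ⟨hf.1.comp hg hm, fun u hu => hf.2 _ (hm hu)⟩
  · intro x r hr hb y hy z hz
    exact cdb_lip hr hb hy hz
  · rintro ⟨x₀, y₀⟩ ⟨hx₀, hy₀⟩
    obtain ⟨r, hr, hrD⟩ := Metric.isOpen_iff.1 hD x₀ hx₀
    obtain ⟨s, hs, hsD⟩ := Metric.isOpen_iff.1 hD y₀ hy₀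
    refine ContinuousAt.continuousWithinAt ?_
    rw [ContinuousAt, tendsto_iff_norm_sub_tendsto_zero]
    have hlim : Tendsto (fun p : V × V => 2 / r * ‖p.1 - x₀‖ + 2 / s * ‖p.2 - y₀‖)
        (𝓝 (x₀, y₀)) (𝓝 0) := by
      have hc : Continuous (fun p : V × V => 2 / r * ‖p.1 - x₀‖ + 2 / s * ‖p.2 - y₀‖) := by
        fun_prop
      have := hc.tendsto (x₀, y₀)
      simpa using this
    refine squeeze_zero' (Eventually.of_forall fun _ => norm_nonneg _) ?_ hlim
    have hn : ball x₀ (r / 2) ×ˢ ball y₀ (s / 2) ∈ 𝓝 (x₀, y₀) :=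
      prod_mem_nhds (ball_mem_nhds _ (half_pos hr)) (ball_mem_nhds _ (half_pos hs))
    filter_upwards [hn] with p hp
    obtain ⟨x, y⟩ := p
    obtain ⟨hx, hy⟩ := hp
    simp only at hx hy ⊢
    have hxD : x ∈ D := hrD (ball_subset_ball (by linarith) hx)
    have hyD : y ∈ D := hsD (ball_subset_ball (by linarith) hy)
    have e1 := cdb_lip hr hrD hx (mem_ball_self (half_pos hr))
    have e2 := cdb_lip hs hsD hy (mem_ball_self (half_pos hs))
    have t1 := htri x hxD x₀ hx₀ y hyD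
    have t2 := htri x₀ hx₀ y₀ hy₀ y hyD
    have t3 := htri x₀ hx₀ x hxD y₀ hy₀
    have t4 := htri x hxD y hyD y₀ hy₀
    have c1 := cdb_comm D x₀ x
    have c2 := cdb_comm D y₀ y
    rw [Real.norm_eq_abs, abs_le]
    constructor <;> linarith

end KVB
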