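import Pool.Agent.Lib.KV.B.SpecA

/-!
# KV (MP_64edc4_ag), part B, block A, module CnB: basic properties of the infinitesimal metric
-/

set_option autoImplicit false

open Set Filter Topology Metric

namespace KVB

open KP

/-- the derivative of a bounded holomorphic map is Lipschitz -/
private lemma cnb_fdlip {E F : Type} [NormedAddCommGroup E] [NormedSpace ℂ E]
    [NormedAddCommGroup F] [NormedSpace ℂ F] {f : E → F} {z : E} {R M : ℝ} (hR : 0 < R)
    (hfR : DifferentiableOn ℂ f (ball z R)) (hM : ∀ w ∈ ball z R, ‖f w‖ ≤ M) {w : E}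
    (hw : w ∈ ball z (R / 4)) :
    ‖fderiv ℂ f w - fderiv ℂ f z‖ ≤ (M / (R - R / 2) * ‖w - z‖) / (R / 4) := by
  have hlip : ∀ x ∈ ball z (R/2), ∀ y ∈ ball z (R/2), ‖f y - f x‖ ≤ M / (R - R/2) * ‖y - x‖ := by
    intro x hx y hy
    refine Convex.norm_image_sub_le_of_norm_fderiv_le (𝕜 := ℂ) (s := ball z (R/2)) ?_ ?_
      (convex_ball z (R/2)) hx hy
    · intro u hu
      have hu' : u ∈ ball z R := ball_subset_ball (by linarith) hu
      exact (hfR u hu').differentiableAt (isOpen_ball.mem_nhds hu')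
    · intro u hu
      exact Pool.Agent.Lib.Osgood.norm_fderiv_le' (by linarith) hfR hM (ball_subset_closedBall hu)
  have hwz : ‖w - z‖ < R/4 := by rwa [← dist_eq_norm]
  set g : E → F := fun u => f (u + (w - z)) - f u with hg
  have hd1 : ∀ u ∈ ball z (R/4), u + (w - z) ∈ ball z (R/2) := by
    intro u hu
    rw [mem_ball, dist_eq_norm] at hu ⊢
    calc ‖u + (w - z) - z‖ = ‖(u - z) + (w - z)‖ := by congr 1; abel
      _ ≤ ‖u - z‖ + ‖w - z‖ := norm_add_le _ _
      _ < R/2 := by linarith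
  have hdf : ∀ u ∈ ball z (R/2), DifferentiableAt ℂ f u := by
    intro u hu
    have hu' : u ∈ ball z R := ball_subset_ball (by linarith) hu
    exact (hfR u hu').differentiableAt (isOpen_ball.mem_nhds hu')
  have hgd : ∀ u ∈ ball z (R/4), HasFDerivAt g (fderiv ℂ f (u + (w - z)) - fderiv ℂ f u) u := by
    intro u hu
    have h1 := (hdf _ (hd1 u hu)).hasFDerivAt
    have h2 : HasFDerivAt (fun u : E => u + (w - z)) (ContinuousLinearMap.id ℂ E) u :=
      (hasFDerivAt_id u).add_const _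
    have h3 := h1.comp u h2
    rw [ContinuousLinearMap.comp_id] at h3
    exact h3.sub (hdf u (ball_subset_ball (by linarith) hu)).hasFDerivAt
  have hgz : fderiv ℂ g z = fderiv ℂ f w - fderiv ℂ f z := by
    have := (hgd z (mem_ball_self (by positivity))).fderiv
    rwa [add_sub_cancel] at this
  rw [← hgz]
  apply Pool.Agent.Lib.Osgood.norm_fderiv_le (by positivity)
  · intro u hu
    exact (hgd u hu).differentiableAt.differentiableWithinAt
  · intro u hu
    have := hlip u (ball_subset_ball (by linarith) hu) _ (hd1 u hu)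
    simpa [hg] using this

section

variable {V : Type} [NormedAddCommGroup V] [NormedSpace ℂ V] {D : Set V}

private lemma cnb_ball {x : V} {r : ℝ} (hr : 0 < r) (hb : ball x r ⊆ D) {f : V → ℂ}
    (hf : f ∈ UF D) (v : V) : ‖fderiv ℂ f x v‖ ≤ ‖v‖ / r := by
  have h1 := Pool.Agent.Lib.Osgood.norm_fderiv_le hr (hf.1.mono hb) fun w hw => hf.2 w (hb hw)
  calc ‖fderiv ℂ f x v‖ ≤ ‖fderiv ℂ f x‖ * ‖v‖ := ContinuousLinearMap.le_opNorm _ _
    _ ≤ 1 / r * ‖v‖ := mul_le_mul_of_nonneg_right h1 (norm_nonneg _)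
    _ = ‖v‖ / r := by ring

private lemma cnb_bdd (hD : IsOpen D) {x : V} (hx : x ∈ D) (v : V) :
    BddAbove ((fun f : V → ℂ => ‖fderiv ℂ f x v‖) '' UF D) := by
  obtain ⟨r, hr, hrD⟩ := Metric.isOpen_iff.1 hD x hx
  refine ⟨‖v‖ / r, ?_⟩
  rintro _ ⟨f, hf, rfl⟩
  exact cnb_ball hr hrD hf v

private lemma cnb_le_cn (hD : IsOpen D) {x : V} (hx : x ∈ D) (v : V) {f : V → ℂ}
    (hf : f ∈ UF D) : ‖fderiv ℂ f x v‖ ≤ cn D x v :=
  le_csSup (cnb_bdd hD hx v) ⟨f, hf, rfl⟩

private lemma cnb_cn_le {x v : V} {C : ℝ} (h : ∀ f ∈ UF D, ‖fderiv ℂ f x v‖ ≤ C) :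
    cn D x v ≤ C := by
  refine csSup_le ⟨_, ⟨_, zero_mem_UF, rfl⟩⟩ ?_
  rintro _ ⟨f, hf, rfl⟩
  exact h f hf

private lemma cnb_nonneg (hD : IsOpen D) {x : V} (hx : x ∈ D) (v : V) : 0 ≤ cn D x v :=
  (norm_nonneg _).trans (cnb_le_cn hD hx v zero_mem_UF)

private lemma cnb_contr (hD : IsOpen D) {g : V → V} (hg : DifferentiableOn ℂ g D)
    (hm : MapsTo g D D) {x : V} (hx : x ∈ D) (v : V) :
    cn D (g x) (fderiv ℂ g x v) ≤ cn D x v := by
  refine cnb_cn_le fun f hf => ?_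
  have h1 : DifferentiableAt ℂ f (g x) := (hf.1 _ (hm hx)).differentiableAt (hD.mem_nhds (hm hx))
  have h2 : DifferentiableAt ℂ g x := (hg x hx).differentiableAt (hD.mem_nhds hx)
  have h3 : fderiv ℂ (f ∘ g) x v = fderiv ℂ f (g x) (fderiv ℂ g x v) := by
    rw [fderiv_comp x h1 h2]
    rfl
  rw [← h3]
  exact cnb_le_cn hD hx v (f := f ∘ g) ⟨hf.1.comp hg hm, fun u hu => hf.2 _ (hm hu)⟩

private lemma cnb_inv (hD : IsOpen D) {g h : V → V} (ha : Aut2 D g h) {x : V} (hx : x ∈ D)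
    (v : V) : fderiv ℂ h (g x) (fderiv ℂ g x v) = v := by
  have h1 : DifferentiableAt ℂ h (g x) :=
    (ha.dh _ (ha.mg hx)).differentiableAt (hD.mem_nhds (ha.mg hx))
  have h2 : DifferentiableAt ℂ g x := (ha.dg x hx).differentiableAt (hD.mem_nhds hx)
  have h3 : fderiv ℂ (h ∘ g) x = (fderiv ℂ h (g x)).comp (fderiv ℂ g x) := fderiv_comp x h1 h2
  have h4 : (h ∘ g) =ᶠ[𝓝 x] id := by
    filter_upwards [hD.mem_nhds hx] with y hy
    exact ha.hg y hy
  rw [h4.fderiv_eq, fderiv_id] at h3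
  have := DFunLike.congr_fun h3 v
  exact this.symm

end

theorem tCnB : S_CnB := by
  intro V _ _ D hD
  refine ⟨fun x hx v => ⟨cnb_nonneg hD hx v, fun f hf => cnb_le_cn hD hx v hf⟩,
    fun x r hr hb v => cnb_cn_le fun f hf => cnb_ball hr hb hf v, ?_, ?_, ?_, ?_⟩
  · intro x hx v v'
    refine cnb_cn_le fun f hf => ?_
    rw [map_add]
    exact (norm_add_le _ _).trans (add_le_add (cnb_le_cn hD hx v hf) (cnb_le_cn hD hx v' hf))
  · have key : ∀ x ∈ D, ∀ (c : ℂ) v, cn D x (c • v) ≤ ‖c‖ * cn D x v := by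
      intro x hx c v
      refine cnb_cn_le fun f hf => ?_
      rw [map_smul, norm_smul]
      exact mul_le_mul_of_nonneg_left (cnb_le_cn hD hx v hf) (norm_nonneg _)
    intro x hx c v
    rcases eq_or_ne c 0 with rfl | hc
    · refine le_antisymm (key x hx 0 v) ?_
      rw [norm_zero, zero_mul]
      exact cnb_nonneg hD hx _
    · refine le_antisymm (key x hx c v) ?_
      have h1 := key x hx c⁻¹ (c • v)
      rw [smul_smul, inv_mul_cancel₀ hc, one_smul, norm_inv] at h1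
      have h2 : 0 < ‖c‖ := norm_pos_iff.2 hc
      calc ‖c‖ * cn D x v ≤ ‖c‖ * (‖c‖⁻¹ * cn D x (c • v)) :=
            mul_le_mul_of_nonneg_left h1 h2.le
        _ = cn D x (c • v) := by
            rw [← mul_assoc, mul_inv_cancel₀ h2.ne', one_mul]
  · intro g h ha x hx v
    refine le_antisymm (cnb_contr hD ha.dg ha.mg hx v) ?_
    have h1 := cnb_contr hD ha.dh ha.mh (ha.mg hx) (fderiv ℂ g x v)
    rwa [ha.hg x hx, cnb_inv hD ha hx v] at h1
  · rintro ⟨x₀, v₀⟩ ⟨hx₀, -⟩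
    obtain ⟨r, hr, hrD⟩ := Metric.isOpen_iff.1 hD x₀ hx₀
    refine ContinuousAt.continuousWithinAt ?_
    rw [ContinuousAt, tendsto_iff_norm_sub_tendsto_zero]
    have hlim : Tendsto (fun p : V × V => (1 / (r - r / 2) * ‖p.1 - x₀‖) / (r / 4) * ‖p.2‖ +
        ‖p.2 - v₀‖ / r) (𝓝 (x₀, v₀)) (𝓝 0) := by
      have hc : Continuous (fun p : V × V => (1 / (r - r / 2) * ‖p.1 - x₀‖) / (r / 4) * ‖p.2‖ +
        ‖p.2 - v₀‖ / r) := by
        fun_prop
      have := hc.tendsto (x₀, v₀)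
      simpa using this
    refine squeeze_zero' (Eventually.of_forall fun _ => norm_nonneg _) ?_ hlim
    have hn : ball x₀ (r / 4) ×ˢ (univ : Set V) ∈ 𝓝 (x₀, v₀) :=
      prod_mem_nhds (ball_mem_nhds _ (by positivity)) univ_mem
    filter_upwards [hn] with p hp
    obtain ⟨x, v⟩ := p
    obtain ⟨hx, -⟩ := hp
    simp only at hx ⊢
    have hxD : x ∈ D := hrD (ball_subset_ball (by linarith) hx)
    have key : ∀ f ∈ UF D, ‖fderiv ℂ f x v - fderiv ℂ f x₀ v₀‖ ≤
        (1 / (r - r / 2) * ‖x - x₀‖) / (r / 4) * ‖v‖ + ‖v - v₀‖ / r := by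
      intro f hf
      have e1 : fderiv ℂ f x v - fderiv ℂ f x₀ v₀ =
          (fderiv ℂ f x - fderiv ℂ f x₀) v + fderiv ℂ f x₀ (v - v₀) := by
        rw [map_sub, ContinuousLinearMap.sub_apply]
        abel
      rw [e1]
      refine (norm_add_le _ _).trans (add_le_add ?_ (cnb_ball hr hrD hf _))
      exact (ContinuousLinearMap.le_opNorm _ _).trans (mul_le_mul_of_nonneg_right
        (cnb_fdlip hr (hf.1.mono hrD) (fun w hw => hf.2 w (hrD hw)) hx) (norm_nonneg _))
    rw [Real.norm_eq_abs, abs_le]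
    constructor
    · have : cn D x₀ v₀ ≤ cn D x v +
          ((1 / (r - r / 2) * ‖x - x₀‖) / (r / 4) * ‖v‖ + ‖v - v₀‖ / r) := by
        refine cnb_cn_le fun f hf => ?_
        have h1 := key f hf
        have h2 := norm_sub_norm_le (fderiv ℂ f x₀ v₀) (fderiv ℂ f x v)
        rw [norm_sub_rev] at h2
        have h3 := cnb_le_cn hD hxD v hf
        linarith
      linarith
    · have : cn D x v ≤ cn D x₀ v₀ +
          ((1 / (r - r / 2) * ‖x - x₀‖) / (r / 4) * ‖v‖ + ‖v - v₀‖ / r) := by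
        refine cnb_cn_le fun f hf => ?_
        have h1 := key f hf
        have h2 := norm_sub_norm_le (fderiv ℂ f x v) (fderiv ℂ f x₀ v₀)
        have h3 := cnb_le_cn hD hx₀ v₀ hf
        linarith
      linarith

end KVB
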