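import Pool.Agent.Lib.KV.B.SpecA

/-!
# KV (MP_64edc4_ag), part B, block A, module CnP: positivity of the infinitesimal metric
-/

set_option autoImplicit false

open Set Filter Topology Metric

namespace KVB

open KP

/-- the derivative of a bounded holomorphic map is Lipschitz -/
private lemma cnp_fdlip {E F : Type} [NormedAddCommGroup E] [NormedSpace ℂ E]
    [NormedAddCommGroup F] [NormedSpace ℂ F] {f : E → F} {z : E} {R M : ℝ} (hR : 0 < R)
    (hfR : DifferentiableOn ℂ f (ball z R)) (hM : ∀ w ∈ ball z R, ‖f w‖ ≤ M) {w : E}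
    (hw : w ∈ ball z (R / 4)) :
    ‖fderiv ℂ f w - fderiv ℂ f z‖ ≤ (M / (R - R / 2) * ‖w - z‖) / (R / 4) := by
  have hlip : ∀ x ∈ ball z (R/2), ∀ y ∈ ball z (R/2), ‖f y - f x‖ ≤ M / (R - R/2) * ‖y - x‖ := by
    intro x hx y hy
    refine Convex.norm_image_sub_le_of_norm_fderiv_le (𝕜 := ℂ) (s := ball z (R/2)) ?_ ?_
      (convex_ball z (R/2)) hx hy
    · intro u hu
      have hu' : u ∈ ball z R := ball_subset_ball (by linarith) hu
      exact (hfR u hu').differentiableAt (isOpen_ball.mem_nhds hu')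
    · intro u hu
      exact Pool.Agent.Lib.Osgood.norm_fderiv_le' (by linarith) hfR hM (ball_subset_closedBall hu)
  have hwz : ‖w - z‖ < R/4 := by rwa [← dist_eq_norm]
  set g : E → F := fun u => f (u + (w - z)) - f u with hg
  have hd1 : ∀ u ∈ ball z (R/4), u + (w - z) ∈ ball z (R/2) := by
    intro u hu
    rw [mem_ball, dist_eq_norm] at hu ⊢
    calc ‖u + (w - z) - z‖ = ‖(u - z) + (w - z)‖ := by congr 1; abel
      _ ≤ ‖u - z‖ + ‖w - z‖ := norm_add_le _ _
      _ < R/2 := by linarith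
  have hdf : ∀ u ∈ ball z (R/2), DifferentiableAt ℂ f u := by
    intro u hu
    have hu' : u ∈ ball z R := ball_subset_ball (by linarith) hu
    exact (hfR u hu').differentiableAt (isOpen_ball.mem_nhds hu')
  have hgd : ∀ u ∈ ball z (R/4), HasFDerivAt g (fderiv ℂ f (u + (w - z)) - fderiv ℂ f u) u := by
    intro u hu
    have h1 := (hdf _ (hd1 u hu)).hasFDerivAt
    have h2 : HasFDerivAt (fun u : E => u + (w - z)) (ContinuousLinearMap.id ℂ E) u :=
      (hasFDerivAt_id u).add_const _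
    have h3 := h1.comp u h2
    rw [ContinuousLinearMap.comp_id] at h3
    exact h3.sub (hdf u (ball_subset_ball (by linarith) hu)).hasFDerivAt
  have hgz : fderiv ℂ g z = fderiv ℂ f w - fderiv ℂ f z := by
    have := (hgd z (mem_ball_self (by positivity))).fderiv
    rwa [add_sub_cancel] at this
  rw [← hgz]
  apply Pool.Agent.Lib.Osgood.norm_fderiv_le (by positivity)
  · intro u hu
    exact (hgd u hu).differentiableAt.differentiableWithinAt
  · intro u hu
    have := hlip u (ball_subset_ball (by linarith) hu) _ (hd1 u hu)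
    simpa [hg] using this


private lemma cnp_le_cn {V : Type} [NormedAddCommGroup V] [NormedSpace ℂ V] {D : Set V}
    {x : V} {r : ℝ} (hr : 0 < r) (hb : ball x r ⊆ D) (v : V) {f : V → ℂ} (hf : f ∈ UF D) :
    ‖fderiv ℂ f x v‖ ≤ cn D x v := by
  refine le_csSup ⟨‖v‖ / r, ?_⟩ ⟨f, hf, rfl⟩
  rintro _ ⟨f', hf', rfl⟩
  have h1 := Pool.Agent.Lib.Osgood.norm_fderiv_le hr (hf'.1.mono hb)
    fun w hw => hf'.2 w (hb hw)
  calc ‖fderiv ℂ f' x v‖ ≤ ‖fderiv ℂ f' x‖ * ‖v‖ := ContinuousLinearMap.le_opNorm _ _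
    _ ≤ 1 / r * ‖v‖ := mul_le_mul_of_nonneg_right h1 (norm_nonneg _)
    _ = ‖v‖ / r := by ring

theorem tCnP (h1 : S_CdB) : S_CnP := by
  intro V _ _ _ D hD Q hQD hQ
  have : ProperSpace V := FiniteDimensional.proper ℂ V
  obtain ⟨δ, hδ, hδD⟩ := hQ.exists_cthickening_subset_open hD.opn hQD
  obtain ⟨c, hc, hlo⟩ := hD.lo (cthickening δ Q) hδD hQ.cthickening
  set r := δ / 2 with hr'
  have hr : 0 < r := half_pos hδ
  have hball : ∀ x ∈ Q, ball x (2 * r) ⊆ cthickening δ Q := by
    intro x hx y hy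
    refine mem_cthickening_of_dist_le y x δ Q hx ?_
    have := mem_ball.1 hy
    rw [hr'] at this
    linarith
  have hself : ∀ x ∈ Q, x ∈ cthickening δ Q := fun x hx =>
    hball x hx (mem_ball_self (by positivity))
  refine ⟨c / 4, by positivity, fun x hx v => ?_⟩
  have hbD : ball x (2 * r) ⊆ D := (hball x hx).trans hδD
  have hxD : x ∈ D := hδD (hself x hx)
  rcases eq_or_ne v 0 with rfl | hv
  · rw [norm_zero, mul_zero]
    exact (norm_nonneg _).trans (cnp_le_cn (by positivity : 0 < 2 * r) hbD 0 zero_mem_UF)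
  have hv' : 0 < ‖v‖ := norm_pos_iff.2 hv
  set a : ℝ := r / ‖v‖ with ha
  have ha0 : 0 < a := by positivity
  set t : ℝ := min (1 / 4) (c * r / 8) with ht
  have ht0 : 0 < t := lt_min (by norm_num) (by positivity)
  have ht1 : t ≤ 1 / 4 := min_le_left _ _
  have ht2 : t ≤ c * r / 8 := min_le_right _ _
  set w : V := ((t * a : ℝ) : ℂ) • v with hw
  have hwn : ‖w‖ = t * r := by
    rw [hw, norm_smul, Complex.norm_real, Real.norm_of_nonneg (by positivity), ha]
    field_simp
  have hxw : x + w ∈ ball x (2 * r) := by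
    rw [mem_ball, dist_self_add_left, hwn]
    nlinarith
  have hcd : c * t * r / 2 < cd D (x + w) x := by
    have h2 := hlo _ (hball x hx hxw) x (hself x hx)
    rw [add_sub_cancel_left, hwn] at h2
    have h3 : 0 < c * t * r := by positivity
    linarith
  have hne : ((fun f : V → ℂ => ‖f (x + w) - f x‖) '' UF D).Nonempty :=
    ⟨_, ⟨_, zero_mem_UF, rfl⟩⟩
  obtain ⟨_, ⟨f, hf, rfl⟩, hfb⟩ := exists_lt_of_lt_csSup hne hcd
  simp only at hfb
  have hfR : DifferentiableOn ℂ f (ball x (2 * r)) := hf.1.mono hbD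
  have hfM : ∀ u ∈ ball x (2 * r), ‖f u‖ ≤ 1 := fun u hu => hf.2 u (hbD hu)
  -- the Taylor estimate
  have htay : ‖f (x + w) - f x - fderiv ℂ f x (x + w - x)‖ ≤ 2 * t / r * ‖x + w - x‖ := by
    refine Convex.norm_image_sub_le_of_norm_fderiv_le' (𝕜 := ℂ) (s := closedBall x (t * r))
      ?_ ?_ (convex_closedBall _ _) (mem_closedBall_self (by positivity)) ?_
    · intro u hu
      have hu' : u ∈ ball x (2 * r) := by
        rw [mem_closedBall] at hu
        rw [mem_ball]
        nlinarith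
      exact (hfR u hu').differentiableAt (isOpen_ball.mem_nhds hu')
    · intro u hu
      rw [mem_closedBall] at hu
      have hu' : u ∈ ball x (2 * r / 4) := by
        rw [mem_ball]
        nlinarith
      refine (cnp_fdlip (by positivity : 0 < 2 * r) hfR hfM hu').trans ?_
      rw [dist_eq_norm] at hu
      have e1 : 1 / (2 * r - 2 * r / 2) * ‖u - x‖ / (2 * r / 4) = 2 / r ^ 2 * ‖u - x‖ := by
        field_simp
        ring
      rw [e1]
      calc 2 / r ^ 2 * ‖u - x‖ ≤ 2 / r ^ 2 * (t * r) :=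
            mul_le_mul_of_nonneg_left hu (by positivity)
        _ = 2 * t / r := by field_simp
    · rw [mem_closedBall, dist_self_add_left, hwn]
  rw [add_sub_cancel_left, hwn] at htay
  have e2 : 2 * t / r * (t * r) = 2 * t ^ 2 := by field_simp
  rw [e2] at htay
  have e3 : fderiv ℂ f x w = ((t * a : ℝ) : ℂ) • fderiv ℂ f x v := by rw [hw, map_smul]
  have e4 : ‖fderiv ℂ f x w‖ = t * a * ‖fderiv ℂ f x v‖ := by
    rw [e3, norm_smul, Complex.norm_real, Real.norm_of_nonneg (by positivity)]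
  have e5 : ‖f (x + w) - f x‖ ≤ ‖f (x + w) - f x - fderiv ℂ f x w‖ + ‖fderiv ℂ f x w‖ := by
    have := norm_add_le (f (x + w) - f x - fderiv ℂ f x w) (fderiv ℂ f x w)
    rwa [sub_add_cancel] at this
  have e6 : c * t * r / 2 ≤ 2 * t ^ 2 + t * a * ‖fderiv ℂ f x v‖ := by
    rw [e4] at e5
    linarith
  have e7 : c * r / 4 ≤ a * ‖fderiv ℂ f x v‖ := by
    have h5 : t * (c * r / 2) ≤ t * (2 * t + a * ‖fderiv ℂ f x v‖) := by
      calc t * (c * r / 2) = c * t * r / 2 := by ring
        _ ≤ 2 * t ^ 2 + t * a * ‖fderiv ℂ f x v‖ := e6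
        _ = _ := by ring
    have h6 := le_of_mul_le_mul_left h5 ht0
    linarith
  have e8 : c / 4 * ‖v‖ ≤ ‖fderiv ℂ f x v‖ := by
    have h7 : r * (c / 4 * ‖v‖) ≤ r * ‖fderiv ℂ f x v‖ := by
      calc r * (c / 4 * ‖v‖) = c * r / 4 * ‖v‖ := by ring
        _ ≤ a * ‖fderiv ℂ f x v‖ * ‖v‖ := mul_le_mul_of_nonneg_right e7 (norm_nonneg _)
        _ = r * ‖fderiv ℂ f x v‖ := by
            rw [ha]
            field_simp
    exact le_of_mul_le_mul_left h7 hr
  exact e8.trans (cnp_le_cn (by positivity : 0 < 2 * r) hbD v hf)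

end KVB
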