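import Pool.Agent.Lib.KV.B.SpecA

/-!
# KV (MP_64edc4_ag), part B, block A, module DnB: basic properties of the volume density
-/

set_option autoImplicit false

open Set Filter Topology Metric

namespace KVB

open KP

/-- the derivative of a bounded holomorphic map is Lipschitz -/
private lemma dnb_fdlip {E F : Type} [NormedAddCommGroup E] [NormedSpace ℂ E]
    [NormedAddCommGroup F] [NormedSpace ℂ F] {f : E → F} {z : E} {R M : ℝ} (hR : 0 < R)
    (hfR : DifferentiableOn ℂ f (ball z R)) (hM : ∀ w ∈ ball z R, ‖f w‖ ≤ M) {w : E}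
    (hw : w ∈ ball z (R / 4)) :
    ‖fderiv ℂ f w - fderiv ℂ f z‖ ≤ (M / (R - R / 2) * ‖w - z‖) / (R / 4) := by
  have hlip : ∀ x ∈ ball z (R/2), ∀ y ∈ ball z (R/2), ‖f y - f x‖ ≤ M / (R - R/2) * ‖y - x‖ := by
    intro x hx y hy
    refine Convex.norm_image_sub_le_of_norm_fderiv_le (𝕜 := ℂ) (s := ball z (R/2)) ?_ ?_
      (convex_ball z (R/2)) hx hy
    · intro u hu
      have hu' : u ∈ ball z R := ball_subset_ball (by linarith) hu
      exact (hfR u hu').differentiableAt (isOpen_ball.mem_nhds hu')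
    · intro u hu
      exact Pool.Agent.Lib.Osgood.norm_fderiv_le' (by linarith) hfR hM (ball_subset_closedBall hu)
  have hwz : ‖w - z‖ < R/4 := by rwa [← dist_eq_norm]
  set g : E → F := fun u => f (u + (w - z)) - f u with hg
  have hd1 : ∀ u ∈ ball z (R/4), u + (w - z) ∈ ball z (R/2) := by
    intro u hu
    rw [mem_ball, dist_eq_norm] at hu ⊢
    calc ‖u + (w - z) - z‖ = ‖(u - z) + (w - z)‖ := by congr 1; abel
      _ ≤ ‖u - z‖ + ‖w - z‖ := norm_add_le _ _
      _ < R/2 := by linarith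
  have hdf : ∀ u ∈ ball z (R/2), DifferentiableAt ℂ f u := by
    intro u hu
    have hu' : u ∈ ball z R := ball_subset_ball (by linarith) hu
    exact (hfR u hu').differentiableAt (isOpen_ball.mem_nhds hu')
  have hgd : ∀ u ∈ ball z (R/4), HasFDerivAt g (fderiv ℂ f (u + (w - z)) - fderiv ℂ f u) u := by
    intro u hu
    have h1 := (hdf _ (hd1 u hu)).hasFDerivAt
    have h2 : HasFDerivAt (fun u : E => u + (w - z)) (ContinuousLinearMap.id ℂ E) u :=
      (hasFDerivAt_id u).add_const _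
    have h3 := h1.comp u h2
    rw [ContinuousLinearMap.comp_id] at h3
    exact h3.sub (hdf u (ball_subset_ball (by linarith) hu)).hasFDerivAt
  have hgz : fderiv ℂ g z = fderiv ℂ f w - fderiv ℂ f z := by
    have := (hgd z (mem_ball_self (by positivity))).fderiv
    rwa [add_sub_cancel] at this
  rw [← hgz]
  apply Pool.Agent.Lib.Osgood.norm_fderiv_le (by positivity)
  · intro u hu
    exact (hgd u hu).differentiableAt.differentiableWithinAt
  · intro u hu
    have := hlip u (ball_subset_ball (by linarith) hu) _ (hd1 u hu)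
    simpa [hg] using this


section

variable {V : Type} [NormedAddCommGroup V] [NormedSpace ℂ V]

private lemma dnb_comp (L M : V →L[ℂ] V) : rdet (L.comp M) = rdet L * rdet M := by
  unfold rdet
  rw [← abs_mul]
  congr 1
  exact LinearMap.det_comp (L.restrictScalars ℝ : V →ₗ[ℝ] V) (M.restrictScalars ℝ : V →ₗ[ℝ] V)

private lemma dnb_id : rdet (ContinuousLinearMap.id ℂ V) = 1 := by
  unfold rdet
  have : ((ContinuousLinearMap.id ℂ V).restrictScalars ℝ).det = 1 :=
    LinearMap.det_id (M := V) (A := ℝ)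
  rw [this, abs_one]

private lemma dnb_nonneg (L : V →L[ℂ] V) : 0 ≤ rdet L := abs_nonneg _

private lemma dnb_cont [FiniteDimensional ℂ V] : Continuous (rdet : (V →L[ℂ] V) → ℝ) := by
  have h0 : FiniteDimensional ℝ V := FiniteDimensional.complexToReal V
  have h1 : Continuous (fun L : V →L[ℂ] V => L.restrictScalars ℝ) :=
    (ContinuousLinearMap.restrictScalarsL ℂ V V ℝ ℝ).continuous
  have h2 : Continuous (fun L : V →L[ℝ] V => L.det) := ContinuousLinearMap.continuous_det
  exact (h2.comp h1).abs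

variable {D : Set V}

private lemma dnb_norm {x : V} {r : ℝ} (hr : 0 < r) (hb : ball x r ⊆ D) {f : V → V}
    (hf : f ∈ UM D) : ‖fderiv ℂ f x‖ ≤ 1 / r :=
  Pool.Agent.Lib.Osgood.norm_fderiv_le hr (hf.1.mono hb) fun w hw => hf.2 w (hb hw)

private lemma dnb_bdd [FiniteDimensional ℂ V] (hD : IsOpen D) {x : V} (hx : x ∈ D) :
    BddAbove ((fun f : V → V => rdet (fderiv ℂ f x)) '' UM D) := by
  have h0 : FiniteDimensional ℂ (V →L[ℂ] V) := inferInstance
  have : ProperSpace (V →L[ℂ] V) := FiniteDimensional.proper ℂ _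
  obtain ⟨r, hr, hrD⟩ := Metric.isOpen_iff.1 hD x hx
  obtain ⟨C, hC⟩ := (isCompact_closedBall (0 : V →L[ℂ] V) (1 / r)).exists_bound_of_continuousOn
    dnb_cont.continuousOn
  refine ⟨C, ?_⟩
  rintro _ ⟨f, hf, rfl⟩
  exact (le_abs_self _).trans (hC _ (mem_closedBall_zero_iff.2 (dnb_norm hr hrD hf)))

private lemma dnb_le [FiniteDimensional ℂ V] (hD : IsOpen D) {x : V} (hx : x ∈ D) {f : V → V}
    (hf : f ∈ UM D) : rdet (fderiv ℂ f x) ≤ dens D x :=
  le_csSup (dnb_bdd hD hx) ⟨f, hf, rfl⟩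

private lemma dnb_ge {x : V} {C : ℝ} (h : ∀ f ∈ UM D, rdet (fderiv ℂ f x) ≤ C) :
    dens D x ≤ C := by
  refine csSup_le ⟨_, ⟨_, zero_mem_UM, rfl⟩⟩ ?_
  rintro _ ⟨f, hf, rfl⟩
  exact h f hf

private lemma dnb_inv (hD : IsOpen D) {g h : V → V} (ha : Aut2 D g h) {x : V} (hx : x ∈ D) :
    (fderiv ℂ h (g x)).comp (fderiv ℂ g x) = ContinuousLinearMap.id ℂ V := by
  have h1 : DifferentiableAt ℂ h (g x) :=
    (ha.dh _ (ha.mg hx)).differentiableAt (hD.mem_nhds (ha.mg hx))
  have h2 : DifferentiableAt ℂ g x := (ha.dg x hx).differentiableAt (hD.mem_nhds hx)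
  have h3 : fderiv ℂ (h ∘ g) x = (fderiv ℂ h (g x)).comp (fderiv ℂ g x) := fderiv_comp x h1 h2
  have h4 : (h ∘ g) =ᶠ[𝓝 x] id := by
    filter_upwards [hD.mem_nhds hx] with y hy
    exact ha.hg y hy
  rw [h4.fderiv_eq, fderiv_id] at h3
  exact h3.symm

private lemma dnb_contr [FiniteDimensional ℂ V] (hD : IsOpen D) {g h : V → V}
    (ha : Aut2 D g h) {x : V} (hx : x ∈ D) :
    dens D (g x) * rdet (fderiv ℂ g x) ≤ dens D x := by
  have hpos : 0 < rdet (fderiv ℂ g x) := by
    have h1 := congrArg rdet (dnb_inv hD ha hx)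
    rw [dnb_comp, dnb_id] at h1
    rcases (dnb_nonneg (fderiv ℂ g x)).lt_or_eq with h2 | h2
    · exact h2
    · rw [← h2, mul_zero] at h1
      exact absurd h1 (by norm_num)
  rw [← le_div_iff₀ hpos]
  refine dnb_ge fun f hf => ?_
  rw [le_div_iff₀ hpos]
  have h1 : DifferentiableAt ℂ f (g x) :=
    (hf.1 _ (ha.mg hx)).differentiableAt (hD.mem_nhds (ha.mg hx))
  have h2 : DifferentiableAt ℂ g x := (ha.dg x hx).differentiableAt (hD.mem_nhds hx)
  have h3 : fderiv ℂ (f ∘ g) x = (fderiv ℂ f (g x)).comp (fderiv ℂ g x) := fderiv_comp x h1 h2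
  rw [← dnb_comp, ← h3]
  exact dnb_le hD hx (f := f ∘ g) ⟨hf.1.comp ha.dg ha.mg, fun u hu => hf.2 _ (ha.mg hu)⟩

end

theorem tDnB : S_DnB := by
  intro V _ _ _ D hH
  have hD := hH.opn
  refine ⟨?_, ?_, ?_⟩
  · intro x hx
    obtain ⟨f, hf, hf0⟩ := hH.nd x hx
    exact ((dnb_nonneg _).lt_of_ne hf0.symm).trans_le (dnb_le hD hx hf)
  · intro g h ha x hx
    refine le_antisymm (dnb_contr hD ha hx) ?_
    have h1 := dnb_contr hD ha.symm (ha.mg hx)
    rw [ha.hg x hx] at h1
    have h2 := congrArg rdet (dnb_inv hD ha hx)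
    rw [dnb_comp, dnb_id] at h2
    calc dens D x = dens D x * rdet (fderiv ℂ h (g x)) * rdet (fderiv ℂ g x) := by
          rw [mul_assoc, h2, mul_one]
      _ ≤ dens D (g x) * rdet (fderiv ℂ g x) :=
          mul_le_mul_of_nonneg_right h1 (dnb_nonneg _)
  · intro x₀ hx₀
    obtain ⟨R, hR, hRD⟩ := Metric.isOpen_iff.1 hD x₀ hx₀
    have : ProperSpace (V →L[ℂ] V) := FiniteDimensional.proper ℂ _
    refine ContinuousAt.continuousWithinAt ?_
    rw [Metric.continuousAt_iff]
    intro ε hε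
    have hu : UniformContinuousOn (rdet : (V →L[ℂ] V) → ℝ) (closedBall 0 (2 / R)) :=
      (isCompact_closedBall (0 : V →L[ℂ] V) (2 / R)).uniformContinuousOn_of_continuous
        dnb_cont.continuousOn
    rw [Metric.uniformContinuousOn_iff] at hu
    obtain ⟨δ, hδ, hδ'⟩ := hu (ε / 2) (half_pos hε)
    refine ⟨min (R / 4) (δ * (R ^ 2 / 8)), lt_min (by positivity) (by positivity), ?_⟩
    intro x hx
    have hx1 : x ∈ ball x₀ (R / 4) := mem_ball.2 (hx.trans_le (min_le_left _ _))
    have hx2 : ‖x - x₀‖ < δ * (R ^ 2 / 8) := by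
      rw [← dist_eq_norm]
      exact hx.trans_le (min_le_right _ _)
    have hxD : x ∈ D := hRD (ball_subset_ball (by linarith) hx1)
    have hxb : ball x (R / 2) ⊆ D := by
      refine Subset.trans ?_ hRD
      apply ball_subset_ball'
      have := mem_ball.1 hx1
      linarith
    have key : ∀ f ∈ UM D, |rdet (fderiv ℂ f x) - rdet (fderiv ℂ f x₀)| < ε / 2 := by
      intro f hf
      have h1 : fderiv ℂ f x ∈ closedBall (0 : V →L[ℂ] V) (2 / R) := by
        rw [mem_closedBall_zero_iff]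
        refine (dnb_norm (half_pos hR) hxb hf).trans (le_of_eq ?_)
        field_simp
      have h2 : fderiv ℂ f x₀ ∈ closedBall (0 : V →L[ℂ] V) (2 / R) := by
        rw [mem_closedBall_zero_iff]
        refine (dnb_norm hR hRD hf).trans ?_
        exact div_le_div_of_nonneg_right (by norm_num) hR.le
      have h3 : dist (fderiv ℂ f x) (fderiv ℂ f x₀) < δ := by
        rw [dist_eq_norm]
        have h4 := dnb_fdlip hR (hf.1.mono hRD) (fun w hw => hf.2 w (hRD hw)) hx1
        refine h4.trans_lt ?_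
        have e1 : 1 / (R - R / 2) * ‖x - x₀‖ / (R / 4) = ‖x - x₀‖ / (R ^ 2 / 8) := by
          field_simp
          ring
        rw [e1, div_lt_iff₀ (by positivity)]
        exact hx2
      have := hδ' _ h1 _ h2 h3
      rwa [Real.dist_eq] at this
    rw [Real.dist_eq]
    refine lt_of_le_of_lt ?_ (half_lt_self hε)
    rw [abs_le]
    constructor
    · have : dens D x₀ ≤ dens D x + ε / 2 := by
        refine dnb_ge fun f hf => ?_
        have h1 := abs_lt.1 (key f hf)
        have h2 := dnb_le hD hxD hf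
        linarith [h1.1]
      linarith
    · have : dens D x ≤ dens D x₀ + ε / 2 := by
        refine dnb_ge fun f hf => ?_
        have h1 := abs_lt.1 (key f hf)
        have h2 := dnb_le hD hx₀ hf
        linarith [h1.2]
      linarith

end KVB
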