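import Pool.Agent.Lib.KV.B.SpecA

/-!
# KV, part B, block A, module `Eul`: tangent vectors of the automorphism group are complete fields
-/

set_option autoImplicit false

open Set Filter Topology Metric

namespace KVB

open KP

namespace EulAux

section lim

variable {V : Type} [NormedAddCommGroup V] [NormedSpace ℂ V] [FiniteDimensional ℂ V]

/-- Taylor estimate of order two -/
theorem taylor2 {F : V → V} {x : V} {R M : ℝ} (hR : 0 < R)
    (hF : DifferentiableOn ℂ F (ball x R)) (hM : ∀ y ∈ ball x R, ‖F y‖ ≤ M) :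
    ∀ y ∈ ball x (R / 4), ‖F y - F x - fderiv ℂ F x (y - x)‖ ≤
      (8 * M / R ^ 2) * ‖y - x‖ ^ 2 := by
  have : CompleteSpace V := FiniteDimensional.complete ℂ V
  have hM0 : 0 ≤ M := (norm_nonneg _).trans (hM x (mem_ball_self hR))
  have h1 : ∀ z ∈ ball x (R / 2), ‖fderiv ℂ F z‖ ≤ M / (R - R / 2) := fun z hz =>
    Pool.Agent.Lib.Osgood.norm_fderiv_le' (by linarith) hF hM (ball_subset_closedBall hz)
  have hG : DifferentiableOn ℂ (fderiv ℂ F) (ball x R) :=
    Pool.Agent.Lib.Osgood.differentiableOn_fderiv isOpen_ball hF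
  have h2 : ∀ z ∈ closedBall x (R / 4), ‖fderiv ℂ (fderiv ℂ F) z‖ ≤ 8 * M / R ^ 2 := by
    intro z hz
    have h3 := Pool.Agent.Lib.Osgood.norm_fderiv_le' (r := R / 4) (R := R / 2) (by linarith)
      (hG.mono (ball_subset_ball (by linarith))) h1 hz
    have h4 : M / (R - R / 2) / (R / 2 - R / 4) = 8 * M / R ^ 2 := by
      field_simp
      ring
    rwa [h4] at h3
  intro y hy
  have hy' : ‖y - x‖ < R / 4 := by rwa [mem_ball, dist_eq_norm] at hy
  have hs : closedBall x ‖y - x‖ ⊆ closedBall x (R / 4) := closedBall_subset_closedBall hy'.le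
  have hs' : closedBall x ‖y - x‖ ⊆ ball x R := fun z hz => by
    have := hs hz
    rw [mem_closedBall] at this
    rw [mem_ball]
    linarith
  have hxs : x ∈ closedBall x ‖y - x‖ := mem_closedBall_self (norm_nonneg _)
  have hys : y ∈ closedBall x ‖y - x‖ := by rw [mem_closedBall, dist_eq_norm]
  have h5 : ∀ z ∈ closedBall x ‖y - x‖, ‖fderiv ℂ F z - fderiv ℂ F x‖ ≤
      8 * M / R ^ 2 * ‖y - x‖ := by
    intro z hz
    have h6 := (convex_closedBall x ‖y - x‖).norm_image_sub_le_of_norm_fderiv_le (𝕜 := ℂ)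
      (f := fderiv ℂ F) (C := 8 * M / R ^ 2)
      (fun w hw => (hG w (hs' hw)).differentiableAt (isOpen_ball.mem_nhds (hs' hw)))
      (fun w hw => h2 w (hs hw)) hxs hz
    refine h6.trans (mul_le_mul_of_nonneg_left ?_ (by positivity))
    rwa [mem_closedBall, dist_eq_norm] at hz
  have h7 := (convex_closedBall x ‖y - x‖).norm_image_sub_le_of_norm_fderiv_le' (𝕜 := ℂ)
    (f := F) (φ := fderiv ℂ F x) (C := 8 * M / R ^ 2 * ‖y - x‖)
    (fun w hw => (hF w (hs' hw)).differentiableAt (isOpen_ball.mem_nhds (hs' hw))) h5 hxs hys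
  calc ‖F y - F x - fderiv ℂ F x (y - x)‖ ≤ 8 * M / R ^ 2 * ‖y - x‖ * ‖y - x‖ := h7
    _ = _ := by ring

/-- Limits along an ultrafilter of locally bounded holomorphic maps are holomorphic. -/
theorem hol_of_lim (U : Ultrafilter ℕ) {F : ℕ → V → V} {f : V → V} {x : V} {R M : ℝ} (hR : 0 < R)
    (hF : ∀ᶠ j in (U : Filter ℕ), DifferentiableOn ℂ (F j) (ball x R) ∧
      ∀ y ∈ ball x R, ‖F j y‖ ≤ M)
    (hf : ∀ y ∈ ball x R, Tendsto (fun j => F j y) U (𝓝 (f y))) : DifferentiableAt ℂ f x := by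
  have : ProperSpace V := FiniteDimensional.proper ℂ V
  have : ProperSpace (V →L[ℂ] V) := FiniteDimensional.proper ℂ (V →L[ℂ] V)
  obtain ⟨A, hA⟩ : ∃ A : V →L[ℂ] V, Tendsto (fun j => fderiv ℂ (F j) x) U (𝓝 A) := by
    have hc : IsCompact (closedBall (0 : V →L[ℂ] V) (M / R)) := isCompact_closedBall _ _
    have hm : ∀ᶠ j in (U : Filter ℕ), fderiv ℂ (F j) x ∈ closedBall (0 : V →L[ℂ] V) (M / R) := by
      filter_upwards [hF] with j hj
      rw [mem_closedBall_zero_iff]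
      exact Pool.Agent.Lib.Osgood.norm_fderiv_le hR hj.1 hj.2
    obtain ⟨A, -, hA⟩ := hc.ultrafilter_le_nhds (U.map fun j => fderiv ℂ (F j) x) (by
      rw [le_principal_iff]
      exact hm)
    exact ⟨A, hA⟩
  have key : ∀ y ∈ ball x (R / 4), ‖f y - f x - A (y - x)‖ ≤ 8 * M / R ^ 2 * ‖y - x‖ ^ 2 := by
    intro y hy
    have hyR : y ∈ ball x R := ball_subset_ball (by linarith) hy
    have h0 : Tendsto (fun j => fderiv ℂ (F j) x (y - x)) U (𝓝 (A (y - x))) :=
      ((ContinuousLinearMap.apply ℂ V (y - x)).continuous.tendsto A).comp hA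
    have h1 : Tendsto (fun j => ‖F j y - F j x - fderiv ℂ (F j) x (y - x)‖) U
        (𝓝 ‖f y - f x - A (y - x)‖) :=
      (((hf y hyR).sub (hf x (mem_ball_self hR))).sub h0).norm
    refine le_of_tendsto h1 ?_
    filter_upwards [hF] with j hj
    exact taylor2 hR hj.1 hj.2 y hy
  have h2 : HasFDerivAt (fun y => f y - f x - A (y - x)) (0 : V →L[ℂ] V) x := by
    have hO : (fun y => f y - f x - A (y - x)) =O[𝓝 x] fun y => ‖y - x‖ ^ 2 := by
      refine Asymptotics.IsBigO.of_bound (8 * M / R ^ 2) ?_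
      filter_upwards [ball_mem_nhds x (show (0 : ℝ) < R / 4 by positivity)] with y hy
      rw [Real.norm_of_nonneg (by positivity)]
      exact key y hy
    exact hO.hasFDerivAt one_lt_two
  have h3 : HasFDerivAt (fun y => f x + A (y - x)) A x := by
    have h4 : HasFDerivAt (fun y => A (y - x)) A x := by
      simp only [map_sub]
      exact A.hasFDerivAt.sub_const (A x)
    exact h4.const_add (f x)
  have h5 := h2.add h3
  rw [zero_add] at h5
  refine (h5.congr_of_eventuallyEq (Eventually.of_forall fun y => ?_)).differentiableAt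
  simp only [Pi.add_apply]
  abel

end lim

section zp

variable {V : Type} [NormedAddCommGroup V] [NormedSpace ℂ V] {D : Set V} {g h : V → V}

/-- the automorphism as a permutation -/
def pe (H : Aut2 D g h) : Equiv.Perm D where
  toFun x := ⟨g x, H.mg x.2⟩
  invFun x := ⟨h x, H.mh x.2⟩
  left_inv x := Subtype.ext (H.hg x x.2)
  right_inv x := Subtype.ext (H.gh x x.2)

open Classical in
/-- integral powers of an automorphism -/
noncomputable def zp (H : Aut2 D g h) (n : ℤ) (x : V) : V :=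
  if hx : x ∈ D then ((pe H ^ n) ⟨x, hx⟩ : D) else x

variable (H : Aut2 D g h)

theorem zp_eq (n : ℤ) {x : V} (hx : x ∈ D) : zp H n x = ((pe H ^ n) ⟨x, hx⟩ : D) := by
  rw [zp, dif_pos hx]

theorem zp_mem (n : ℤ) {x : V} (hx : x ∈ D) : zp H n x ∈ D := by
  rw [zp_eq H n hx]
  exact Subtype.coe_prop _

theorem zp_zero {x : V} (hx : x ∈ D) : zp H 0 x = x := by
  rw [zp_eq H 0 hx, zpow_zero]
  rfl

theorem zp_add (m n : ℤ) {x : V} (hx : x ∈ D) : zp H (m + n) x = zp H m (zp H n x) := by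
  rw [zp_eq H _ (zp_mem H n hx), zp_eq H _ hx, zpow_add, Equiv.Perm.mul_apply]
  congr 2
  exact Subtype.ext (zp_eq H n hx).symm

theorem zp_nat (n : ℕ) {x : V} (hx : x ∈ D) : zp H n x = g^[n] x := by
  induction n with
  | zero => exact zp_zero H hx
  | succ n ih =>
    rw [zp_eq H _ hx, zpow_natCast, pow_succ', Equiv.Perm.mul_apply, Function.iterate_succ_apply',
      ← ih, zp_eq H _ hx, zpow_natCast]
    rfl

theorem zp_neg (n : ℕ) {x : V} (hx : x ∈ D) : zp H (-(n : ℤ)) x = h^[n] x := by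
  induction n with
  | zero => exact zp_zero H hx
  | succ n ih =>
    have e1 : (pe H ^ (-((n + 1 : ℕ) : ℤ))) = (pe H)⁻¹ * (pe H ^ (-(n : ℤ))) := by
      rw [← zpow_neg_one, ← zpow_add]
      congr 1
      push_cast
      ring
    rw [zp_eq H _ hx, e1, Equiv.Perm.mul_apply, Function.iterate_succ_apply', ← ih, zp_eq H _ hx]
    rfl

theorem zp_dif (n : ℤ) : DifferentiableOn ℂ (zp H n) D := by
  obtain ⟨k, rfl | rfl⟩ := n.eq_nat_or_neg
  · exact (H.dg.iterate H.mg k).congr fun x hx => zp_nat H k hx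
  · exact (H.dh.iterate H.mh k).congr fun x hx => zp_neg H k hx

end zp

/-- the hypotheses -/
structure Ctx {V : Type} [NormedAddCommGroup V] [NormedSpace ℂ V] (D : Set V) (g h : ℕ → V → V)
    (t : ℕ → ℝ) (X : V → V) : Prop where
  H : Hyp D
  A : ∀ j, Aut2 D (g j) (h j)
  t0 : ∀ j, 0 < t j
  tl : Tendsto t atTop (𝓝 0)
  cv : ∀ Q ⊆ D, IsCompact Q →
    TendstoUniformlyOn (fun j x => ((t j)⁻¹ : ℝ) • (g j x - x)) X atTop Q

section main

variable {V : Type} [NormedAddCommGroup V] [NormedSpace ℂ V] {D : Set V} {g h : ℕ → V → V}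
  {t : ℕ → ℝ} {X : V → V} (c : Ctx D g h t X)

include c in
theorem bddX {Q : Set V} (hQD : Q ⊆ D) (hQ : IsCompact Q) : ∃ M > 0, (∀ x ∈ Q, ‖X x‖ ≤ M) ∧
    ∀ᶠ j in atTop, ∀ x ∈ Q, ‖((t j)⁻¹ : ℝ) • (g j x - x)‖ ≤ M := by
  have h1 := Metric.tendstoUniformlyOn_iff.1 (c.cv Q hQD hQ) 1 one_pos
  obtain ⟨j0, hj0⟩ := h1.exists
  have hc : ContinuousOn (fun x => ((t j0)⁻¹ : ℝ) • (g j0 x - x)) Q :=
    (((c.A j0).dg.continuousOn.mono hQD).sub continuousOn_id).const_smul _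
  obtain ⟨M, hM⟩ := hQ.exists_bound_of_continuousOn hc
  have hX : ∀ x ∈ Q, ‖X x‖ ≤ |M| + 1 := by
    intro x hx
    have h2 := hj0 x hx
    rw [dist_eq_norm] at h2
    have h3 := hM x hx
    have h4 : ‖X x‖ ≤ ‖X x - ((t j0)⁻¹ : ℝ) • (g j0 x - x)‖ + ‖((t j0)⁻¹ : ℝ) • (g j0 x - x)‖ := by
      have := norm_add_le (X x - ((t j0)⁻¹ : ℝ) • (g j0 x - x)) (((t j0)⁻¹ : ℝ) • (g j0 x - x))
      rwa [sub_add_cancel] at this
    have h5 := le_abs_self M
    linarith
  refine ⟨|M| + 2, by positivity, fun x hx => (hX x hx).trans (by linarith), ?_⟩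
  filter_upwards [h1] with j hj x hx
  have h2 := hj x hx
  rw [dist_comm, dist_eq_norm] at h2
  have h3 := hX x hx
  have h4 := norm_add_le (((t j)⁻¹ : ℝ) • (g j x - x) - X x) (X x)
  rw [sub_add_cancel] at h4
  linarith

include c in
theorem stepA (h1 : S_CdB) {Q : Set V} (hQD : Q ⊆ D) (hQ : IsCompact Q) :
    ∃ C > 0, ∀ᶠ j in atTop, ∀ x ∈ Q, ‖g j x - x‖ ≤ C * t j ∧ cd D x (g j x) ≤ C * t j := by
  obtain ⟨M, hM, -, hb⟩ := bddX c hQD hQ
  obtain ⟨r, hr, hrD⟩ := hQ.exists_thickening_subset_open c.H.opn hQD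
  have hcd := (h1 V D c.H.opn).2.2.2.1
  refine ⟨M + 2 / r * M, by positivity, ?_⟩
  have e1 : ∀ᶠ j in atTop, M * t j < r / 2 := by
    have := c.tl.const_mul M
    rw [mul_zero] at this
    exact this.eventually (gt_mem_nhds (by positivity))
  filter_upwards [hb, e1] with j hj hj1 x hx
  have ht := c.t0 j
  have h2 : ‖g j x - x‖ ≤ M * t j := by
    have h3 := hj x hx
    rw [norm_smul, norm_inv, Real.norm_of_nonneg ht.le] at h3
    rw [inv_mul_le_iff₀ ht] at h3
    linarith [mul_comm M (t j)]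
  have h4 : 0 ≤ 2 / r * M * t j := by positivity
  have h5 : 0 ≤ M * t j := by positivity
  constructor
  · calc ‖g j x - x‖ ≤ M * t j := h2
      _ ≤ (M + 2 / r * M) * t j := by linarith
  · have h6 : ball x r ⊆ D := (ball_subset_thickening hx r).trans hrD
    have h7 := hcd x r hr h6 x (mem_ball_self (by positivity)) (g j x) (by
      rw [mem_ball, dist_eq_norm]
      linarith)
    rw [norm_sub_rev] at h7
    calc cd D x (g j x) ≤ 2 / r * ‖g j x - x‖ := h7
      _ ≤ 2 / r * (M * t j) := mul_le_mul_of_nonneg_left h2 (by positivity)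
      _ ≤ (M + 2 / r * M) * t j := by linarith

theorem stepB (h1 : S_CdB) (h2 : S_Itr) {Q : Set V} (hQD : Q ⊆ D) (hQ : IsCompact Q) (T : ℝ) :
    ∃ Q' ⊆ D, IsCompact Q' ∧ Q ⊆ Q' ∧ ∀ᶠ j in atTop, ∀ n : ℤ, |(n : ℝ)| * t j ≤ T →
      ∀ x ∈ Q, zp (c.A j) n x ∈ Q' := by
  obtain ⟨r0, hr0, hI⟩ := h2 V D c.H
  obtain ⟨C, hC, hA⟩ := stepA c h1 hQD hQ
  obtain ⟨Q', hQ'D, hQ', hQQ', hI'⟩ := hI Q hQD hQ (C * T)
  obtain ⟨hc1, -, hc3, -, -⟩ := h1 V D c.H.opn
  refine ⟨Q', hQ'D, hQ', hQQ', ?_⟩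
  have e1 : ∀ᶠ j in atTop, C * t j < r0 := by
    have := c.tl.const_mul C
    rw [mul_zero] at this
    exact this.eventually (gt_mem_nhds hr0)
  filter_upwards [hA, e1] with j hj hj1 n hn x hx
  have hxD := hQD hx
  have h3 := (hj x hx).2
  have key : ∀ (k : ℕ) (d : ℝ), (k : ℝ) * t j ≤ T → d ≤ C * t j → (k : ℝ) * d ≤ C * T := by
    intro k d hk hd
    calc (k : ℝ) * d ≤ k * (C * t j) := mul_le_mul_of_nonneg_left hd (Nat.cast_nonneg k)
      _ = C * (k * t j) := by ring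
      _ ≤ C * T := mul_le_mul_of_nonneg_left hk hC.le
  obtain ⟨k, rfl | rfl⟩ := n.eq_nat_or_neg
  · rw [Int.cast_natCast, Nat.abs_cast] at hn
    rw [zp_nat _ _ hxD]
    exact hI' (g j) (c.A j).dg (c.A j).mg x hx (by linarith) k (key k _ hn h3)
  · rw [Int.cast_neg, Int.cast_natCast, abs_neg, Nat.abs_cast] at hn
    rw [zp_neg _ _ hxD]
    have h4 : cd D x (h j x) ≤ C * t j := by
      rw [(hc1 x hxD _ ((c.A j).mh hxD)).2.2.1]
      have h5 := hc3 (h j) (c.A j).dh (c.A j).mh x hxD (g j x) ((c.A j).mg hxD)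
      rw [(c.A j).hg x hxD] at h5
      exact h5.trans h3
    exact hI' (h j) (c.A j).dh (c.A j).mh x hx (by linarith) k (key k _ hn h4)

/-- the flow -/
noncomputable def fl (c : Ctx D g h t X) (s : ℝ) (x : V) : V :=
  limUnder (hyperfilter ℕ : Filter ℕ) (fun j => zp (c.A j) ⌊s / t j⌋ x)

include c in
theorem floor_bd (j : ℕ) (s : ℝ) : |((⌊s / t j⌋ : ℤ) : ℝ) * t j - s| ≤ t j := by
  have ht := c.t0 j
  have h1 := Int.floor_le (s / t j)
  have h2 := Int.lt_floor_add_one (s / t j)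
  rw [le_div_iff₀ ht] at h1
  rw [div_lt_iff₀ ht] at h2
  rw [abs_le]
  constructor <;> linarith [add_mul ((⌊s / t j⌋ : ℤ) : ℝ) 1 (t j)]

theorem stepC [FiniteDimensional ℂ V] (h1 : S_CdB) (h2 : S_Itr) {Q : Set V} (hQD : Q ⊆ D)
    (hQ : IsCompact Q) (T : ℝ) :
    ∃ Q' ⊆ D, IsCompact Q' ∧ Q ⊆ Q' ∧
      (∀ᶠ j in atTop, ∀ s, |s| ≤ T → ∀ x ∈ Q, zp (c.A j) ⌊s / t j⌋ x ∈ Q') ∧
      ∀ s, |s| ≤ T → ∀ x ∈ Q, fl c s x ∈ Q' ∧
        Tendsto (fun j => zp (c.A j) ⌊s / t j⌋ x) (hyperfilter ℕ : Filter ℕ) (𝓝 (fl c s x)) := by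
  obtain ⟨Q', hQ'D, hQ', hQQ', hB⟩ := stepB c h1 h2 hQD hQ (T + 1)
  have e1 : ∀ᶠ j in atTop, t j < 1 := c.tl.eventually (gt_mem_nhds one_pos)
  have e2 : ∀ᶠ j in atTop, ∀ s, |s| ≤ T → ∀ x ∈ Q, zp (c.A j) ⌊s / t j⌋ x ∈ Q' := by
    filter_upwards [hB, e1] with j hj hj1 s hs x hx
    refine hj _ ?_ x hx
    have h3 := floor_bd c j s
    have h4 : |((⌊s / t j⌋ : ℤ) : ℝ)| * t j = |((⌊s / t j⌋ : ℤ) : ℝ) * t j| := by
      rw [abs_mul, abs_of_pos (c.t0 j)]
    rw [h4]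
    have h5 := abs_add_le (((⌊s / t j⌋ : ℤ) : ℝ) * t j - s) s
    rw [sub_add_cancel] at h5
    linarith
  refine ⟨Q', hQ'D, hQ', hQQ', e2, fun s hs x hx => ?_⟩
  have e3 : ∀ᶠ j in (hyperfilter ℕ : Filter ℕ), zp (c.A j) ⌊s / t j⌋ x ∈ Q' := by
    filter_upwards [Nat.hyperfilter_le_atTop e2] with j hj
    exact hj s hs x hx
  obtain ⟨y, -, hy⟩ := hQ'.ultrafilter_le_nhds
    ((hyperfilter ℕ).map fun j => zp (c.A j) ⌊s / t j⌋ x) (by
      rw [le_principal_iff]
      exact e3)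
  have h6 : Tendsto (fun j => zp (c.A j) ⌊s / t j⌋ x) (hyperfilter ℕ : Filter ℕ)
    (𝓝 (fl c s x)) := tendsto_nhds_limUnder ⟨y, hy⟩
  exact ⟨hQ'.isClosed.mem_of_tendsto h6 e3, h6⟩

theorem fl_tends [FiniteDimensional ℂ V] (h1 : S_CdB) (h2 : S_Itr) (s : ℝ) {x : V} (hx : x ∈ D) :
    fl c s x ∈ D ∧
      Tendsto (fun j => zp (c.A j) ⌊s / t j⌋ x) (hyperfilter ℕ : Filter ℕ) (𝓝 (fl c s x)) := by
  obtain ⟨Q', hQ'D, -, -, -, h3⟩ := stepC c h1 h2 (singleton_subset_iff.2 hx) isCompact_singleton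
    |s|
  obtain ⟨h4, h5⟩ := h3 s le_rfl x rfl
  exact ⟨hQ'D h4, h5⟩

include c in
theorem exists_closedBall {x : V} (hx : x ∈ D) : ∃ R > 0, closedBall x R ⊆ D := by
  obtain ⟨R, hR, hRD⟩ := Metric.isOpen_iff.1 c.H.opn x hx
  refine ⟨R / 2, by positivity, fun y hy => hRD ?_⟩
  rw [mem_closedBall] at hy
  rw [mem_ball]
  linarith

theorem loc_bdd [FiniteDimensional ℂ V] (h1 : S_CdB) (h2 : S_Itr) (s : ℝ) {x : V} {R : ℝ}
    (hRD : closedBall x R ⊆ D) :
    ∃ M : ℝ, 0 ≤ M ∧ ∀ᶠ j in (hyperfilter ℕ : Filter ℕ),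
      DifferentiableOn ℂ (zp (c.A j) ⌊s / t j⌋) (ball x R) ∧
      ∀ y ∈ ball x R, ‖zp (c.A j) ⌊s / t j⌋ y‖ ≤ M := by
  have : ProperSpace V := FiniteDimensional.proper ℂ V
  obtain ⟨Q', -, hQ', -, h3, -⟩ := stepC c h1 h2 hRD (isCompact_closedBall _ _) |s|
  obtain ⟨M, hM⟩ := hQ'.isBounded.exists_norm_le
  refine ⟨|M|, abs_nonneg _, ?_⟩
  filter_upwards [Nat.hyperfilter_le_atTop h3] with j hj
  refine ⟨(zp_dif (c.A j) _).mono (ball_subset_closedBall.trans hRD), fun y hy => ?_⟩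
  exact (hM _ (hj s le_rfl y (ball_subset_closedBall hy))).trans (le_abs_self M)

theorem fl_dif [FiniteDimensional ℂ V] (h1 : S_CdB) (h2 : S_Itr) (s : ℝ) :
    DifferentiableOn ℂ (fl c s) D := by
  intro x hx
  obtain ⟨R, hR, hRD⟩ := exists_closedBall c hx
  obtain ⟨M, -, hM⟩ := loc_bdd c h1 h2 s hRD
  exact (hol_of_lim (hyperfilter ℕ) hR hM
    fun y hy => (fl_tends c h1 h2 s (hRD (ball_subset_closedBall hy))).2).differentiableWithinAt

include c in
theorem X_dif [FiniteDimensional ℂ V] : DifferentiableOn ℂ X D := by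
  have : ProperSpace V := FiniteDimensional.proper ℂ V
  intro x hx
  obtain ⟨R, hR, hRD⟩ := exists_closedBall c hx
  obtain ⟨M, -, -, hM⟩ := bddX c hRD (isCompact_closedBall _ _)
  refine (hol_of_lim (hyperfilter ℕ) (F := fun j x => ((t j)⁻¹ : ℝ) • (g j x - x)) (M := M) hR ?_
    fun y hy => ?_).differentiableWithinAt
  · filter_upwards [Nat.hyperfilter_le_atTop hM] with j hj
    refine ⟨?_, fun y hy => hj y (ball_subset_closedBall hy)⟩
    have h3 := ((((c.A j).dg).mono (ball_subset_closedBall.trans hRD)).sub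
      differentiableOn_id).const_smul (((t j)⁻¹ : ℝ) : ℂ)
    refine h3.congr fun y _ => ?_
    simp only [Pi.smul_apply, Pi.sub_apply, id, Complex.coe_smul]
  · exact ((c.cv _ hRD (isCompact_closedBall _ _)).tendsto_at
      (ball_subset_closedBall hy)).mono_left Nat.hyperfilter_le_atTop

theorem stepD [FiniteDimensional ℂ V] (h1 : S_CdB) (h2 : S_Itr) (s : ℝ) {x : V} (hx : x ∈ D)
    {y : ℕ → V} (hy : Tendsto y (hyperfilter ℕ : Filter ℕ) (𝓝 x)) :
    Tendsto (fun j => zp (c.A j) ⌊s / t j⌋ (y j)) (hyperfilter ℕ : Filter ℕ)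
      (𝓝 (fl c s x)) := by
  obtain ⟨R, hR, hRD⟩ := exists_closedBall c hx
  obtain ⟨M, hM0, hM⟩ := loc_bdd c h1 h2 s hRD
  have h3 := (fl_tends c h1 h2 s hx).2
  have h4 : Tendsto (fun j => M / (R - R / 2) * ‖y j - x‖) (hyperfilter ℕ : Filter ℕ) (𝓝 0) := by
    have := ((hy.sub_const x).norm).const_mul (M / (R - R / 2))
    rwa [sub_self, norm_zero, mul_zero] at this
  have h5 : Tendsto (fun j => zp (c.A j) ⌊s / t j⌋ (y j) - zp (c.A j) ⌊s / t j⌋ x)
      (hyperfilter ℕ : Filter ℕ) (𝓝 0) := by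
    refine squeeze_zero_norm' ?_ h4
    filter_upwards [hM, hy (closedBall_mem_nhds x (show (0 : ℝ) < R / 2 by positivity))]
      with j hj hj1
    have hj2 : y j ∈ closedBall x (R / 2) := hj1
    have h6 : closedBall x (R / 2) ⊆ ball x R := fun z hz => by
      rw [mem_closedBall] at hz
      rw [mem_ball]
      linarith
    refine (convex_closedBall x (R / 2)).norm_image_sub_le_of_norm_fderiv_le (𝕜 := ℂ)
      (fun w hw => (hj.1 w (h6 hw)).differentiableAt (isOpen_ball.mem_nhds (h6 hw)))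
      (fun w hw => Pool.Agent.Lib.Osgood.norm_fderiv_le' (by linarith) hj.1 hj.2 hw)
      (mem_closedBall_self (by positivity)) hj2
  have h7 := h3.add h5
  rw [add_zero] at h7
  refine h7.congr fun j => ?_
  abel

theorem fl_zero [FiniteDimensional ℂ V] (h1 : S_CdB) (h2 : S_Itr) {x : V} (hx : x ∈ D) :
    fl c 0 x = x := by
  refine tendsto_nhds_unique (fl_tends c h1 h2 0 hx).2 ?_
  refine tendsto_const_nhds.congr fun j => ?_
  rw [zero_div, Int.floor_zero, zp_zero _ hx]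

theorem fl_add [FiniteDimensional ℂ V] (h1 : S_CdB) (h2 : S_Itr) (s u : ℝ) {x : V} (hx : x ∈ D) :
    fl c (s + u) x = fl c s (fl c u x) := by
  refine tendsto_nhds_unique (fl_tends c h1 h2 (s + u) hx).2 ?_
  obtain ⟨C, hC, hA⟩ := stepA c h1 (singleton_subset_iff.2 hx) isCompact_singleton
  have h3 : Tendsto (fun j => zp (c.A j) (⌊(s + u) / t j⌋ - ⌊s / t j⌋ - ⌊u / t j⌋) x)
      (hyperfilter ℕ : Filter ℕ) (𝓝 x) := by
    rw [← tendsto_sub_nhds_zero_iff]
    have h4 : Tendsto (fun j => C * t j) (hyperfilter ℕ : Filter ℕ) (𝓝 0) := by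
      have := (c.tl.mono_left Nat.hyperfilter_le_atTop).const_mul C
      rwa [mul_zero] at this
    refine squeeze_zero_norm' ?_ h4
    filter_upwards [Nat.hyperfilter_le_atTop hA] with j hj
    have h5 := Int.le_floor_add (s / t j) (u / t j)
    have h6 := Int.le_floor_add_floor (s / t j) (u / t j)
    rw [← add_div] at h5 h6
    have h7 : ⌊(s + u) / t j⌋ - ⌊s / t j⌋ - ⌊u / t j⌋ = 0 ∨
      ⌊(s + u) / t j⌋ - ⌊s / t j⌋ - ⌊u / t j⌋ = 1 := by omega
    rcases h7 with h7 | h7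
    · rw [h7, zp_zero _ hx, sub_self, norm_zero]
      exact mul_nonneg hC.le (c.t0 j).le
    · rw [h7]
      have h8 := zp_nat (c.A j) 1 hx
      rw [Nat.cast_one, Function.iterate_one] at h8
      rw [h8]
      exact (hj x rfl).1
  have h9 := stepD c h1 h2 s (fl_tends c h1 h2 u hx).1 (stepD c h1 h2 u hx h3)
  refine h9.congr fun j => ?_
  rw [← zp_add _ _ _ (zp_mem _ _ hx), ← zp_add _ _ _ hx]
  congr 1
  ring

theorem stepE [FiniteDimensional ℂ V] (h1 : S_CdB) (h2 : S_Itr) {Q : Set V} (hQD : Q ⊆ D)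
    (hQ : IsCompact Q) {ε : ℝ} (hε : 0 < ε) :
    ∃ δ > 0, ∀ s, 0 ≤ s → s ≤ δ → ∀ x ∈ Q, ‖fl c s x - x - s • X x‖ ≤ ε * s := by
  obtain ⟨Q', hQ'D, hQ', hQQ', hB⟩ := stepB c h1 h2 hQD hQ 1
  obtain ⟨C, hC, hA⟩ := stepA c h1 hQ'D hQ'
  have huc : UniformContinuousOn X Q' :=
    hQ'.uniformContinuousOn_of_continuous ((X_dif c).continuousOn.mono hQ'D)
  obtain ⟨δ', hδ', hδX⟩ := Metric.uniformContinuousOn_iff.1 huc (ε / 2) (by positivity)
  have hU := Metric.tendstoUniformlyOn_iff.1 (c.cv Q' hQ'D hQ') (ε / 2) (by positivity)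
  refine ⟨min 1 (δ' / (2 * C)), by positivity, fun s hs0 hs x hx => ?_⟩
  have hs1 : s ≤ 1 := hs.trans (min_le_left _ _)
  have hs2 : C * s < δ' := by
    have h3 : s ≤ δ' / (2 * C) := hs.trans (min_le_right _ _)
    calc C * s ≤ C * (δ' / (2 * C)) := mul_le_mul_of_nonneg_left h3 hC.le
      _ = δ' / 2 := by field_simp
      _ < δ' := by linarith
  have hxD := hQD hx
  have key : ∀ᶠ j in atTop, ∀ k : ℕ, (k : ℝ) * t j ≤ s → ‖zp (c.A j) k x - x‖ ≤ C * (k * t j) ∧
      ‖zp (c.A j) k x - x - ((k : ℝ) * t j) • X x‖ ≤ ε * (k * t j) := by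
    filter_upwards [hB, hA, hU] with j hj1 hj2 hj3 k
    have ht := c.t0 j
    induction k with
    | zero =>
      intro _
      rw [Nat.cast_zero, zp_zero _ hxD]
      simp
    | succ k ih =>
      intro hk
      have hk' : (k : ℝ) * t j ≤ s := by
        refine le_trans ?_ hk
        push_cast
        nlinarith
      obtain ⟨i1, i2⟩ := ih hk'
      have hyQ : zp (c.A j) k x ∈ Q' := by
        refine hj1 k ?_ x hx
        rw [Int.cast_natCast, Nat.abs_cast]
        exact hk'.trans hs1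
      have hz : zp (c.A j) ((k + 1 : ℕ) : ℤ) x = g j (zp (c.A j) k x) := by
        rw [zp_nat _ _ hxD, zp_nat _ _ hxD, Function.iterate_succ_apply']
      rw [hz]
      generalize zp (c.A j) k x = y at *
      have h3 := (hj2 y hyQ).1
      have h4 : dist y x < δ' := by
        rw [dist_eq_norm]
        refine lt_of_le_of_lt i1 (lt_of_le_of_lt ?_ hs2)
        exact mul_le_mul_of_nonneg_left hk' hC.le
      have h5 := hδX y hyQ x (hQQ' hx) h4
      have h6 := hj3 y hyQ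
      rw [dist_eq_norm] at h5
      rw [dist_comm, dist_eq_norm] at h6
      have h7 : ‖(t j)⁻¹ • (g j y - y) - X x‖ ≤ ε := by
        have := norm_add_le ((t j)⁻¹ • (g j y - y) - X y) (X y - X x)
        rw [sub_add_sub_cancel] at this
        linarith
      have h8 : ‖g j y - y - t j • X x‖ ≤ ε * t j := by
        have h9 : g j y - y - t j • X x = t j • ((t j)⁻¹ • (g j y - y) - X x) := by
          rw [smul_sub, smul_smul, mul_inv_cancel₀ ht.ne', one_smul]
        rw [h9, norm_smul, Real.norm_of_nonneg ht.le, mul_comm]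
        exact mul_le_mul_of_nonneg_right h7 ht.le
      constructor
      · have h10 := norm_add_le (g j y - y) (y - x)
        rw [sub_add_sub_cancel] at h10
        push_cast
        calc ‖g j y - x‖ ≤ C * t j + C * (k * t j) := by linarith
          _ = C * ((k + 1) * t j) := by ring
      · have h10 : g j y - x - (((k + 1 : ℕ) : ℝ) * t j) • X x =
            (g j y - y - t j • X x) + (y - x - ((k : ℝ) * t j) • X x) := by
          push_cast
          rw [add_mul, one_mul, add_smul]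
          abel
        rw [h10]
        refine (norm_add_le _ _).trans ?_
        push_cast
        calc ‖g j y - y - t j • X x‖ + ‖y - x - ((k : ℝ) * t j) • X x‖
            ≤ ε * t j + ε * (k * t j) := add_le_add h8 i2
          _ = ε * ((k + 1) * t j) := by ring
  have h3 := (fl_tends c h1 h2 s hxD).2
  have ht0 : Tendsto t (hyperfilter ℕ : Filter ℕ) (𝓝 0) := c.tl.mono_left Nat.hyperfilter_le_atTop
  have h4 : Tendsto (fun j => ((⌊s / t j⌋ : ℤ) : ℝ) * t j) (hyperfilter ℕ : Filter ℕ) (𝓝 s) := by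
    rw [← tendsto_sub_nhds_zero_iff]
    refine squeeze_zero_norm (fun j => ?_) ht0
    rw [Real.norm_eq_abs]
    exact floor_bd c j s
  have h5 : Tendsto (fun j => ‖zp (c.A j) ⌊s / t j⌋ x - x -
      (((⌊s / t j⌋ : ℤ) : ℝ) * t j) • X x‖) (hyperfilter ℕ : Filter ℕ)
      (𝓝 ‖fl c s x - x - s • X x‖) := ((h3.sub_const x).sub (h4.smul_const (X x))).norm
  refine le_of_tendsto h5 ?_
  filter_upwards [Nat.hyperfilter_le_atTop key] with j hj
  have ht := c.t0 j
  have h6 : 0 ≤ ⌊s / t j⌋ := Int.floor_nonneg.2 (by positivity)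
  obtain ⟨k, hk⟩ := Int.eq_ofNat_of_zero_le h6
  have h7 : ((⌊s / t j⌋ : ℤ) : ℝ) * t j ≤ s := by
    have := Int.floor_le (s / t j)
    rwa [le_div_iff₀ ht] at this
  rw [hk] at h7 ⊢
  rw [Int.cast_natCast] at h7 ⊢
  refine (hj k h7).2.trans (mul_le_mul_of_nonneg_left h7 hε.le)

theorem fl_der0 [FiniteDimensional ℂ V] (h1 : S_CdB) (h2 : S_Itr) {x : V} (hx : x ∈ D) :
    HasDerivAt (fun s => fl c s x) (X x) 0 := by
  rw [hasDerivAt_iff_isLittleO, Asymptotics.isLittleO_iff]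
  intro ε hε
  obtain ⟨Q, hQD, hQ, hxQ, -, hfl⟩ := stepC c h1 h2 (singleton_subset_iff.2 hx)
    isCompact_singleton 1
  obtain ⟨δ, hδ, hE⟩ := stepE c h1 h2 hQD hQ (show (0 : ℝ) < ε / 2 by positivity)
  obtain ⟨M, hM, hMX, -⟩ := bddX c hQD hQ
  have hXc : ContinuousAt X x := (X_dif c).continuousOn.continuousAt (c.H.opn.mem_nhds hx)
  obtain ⟨δ', hδ', hX'⟩ := Metric.continuousAt_iff.1 hXc (ε / 2) (by positivity)
  have e1 : ∀ᶠ s : ℝ in 𝓝 0, |s| < min (min δ 1) (δ' / (M + ε / 2)) := by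
    have h3 : Tendsto (fun s : ℝ => |s|) (𝓝 0) (𝓝 |0|) := continuous_abs.tendsto 0
    rw [abs_zero] at h3
    exact h3.eventually (gt_mem_nhds (by positivity))
  filter_upwards [e1] with s hs
  have hs1 : |s| ≤ δ := (hs.le.trans (min_le_left _ _)).trans (min_le_left _ _)
  have hs2 : |s| ≤ 1 := (hs.le.trans (min_le_left _ _)).trans (min_le_right _ _)
  have hs3 : |s| < δ' / (M + ε / 2) := hs.trans_le (min_le_right _ _)
  rw [fl_zero c h1 h2 hx, sub_zero, Real.norm_eq_abs]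
  rcases le_or_gt 0 s with h0 | h0
  · rw [abs_of_nonneg h0] at hs1 ⊢
    refine (hE s h0 hs1 x (hxQ rfl)).trans ?_
    exact mul_le_mul_of_nonneg_right (by linarith) h0
  · have hy := (hfl s hs2 x rfl).1
    have h3 : fl c (-s) (fl c s x) = x := by
      rw [← fl_add c h1 h2 _ _ hx, neg_add_cancel, fl_zero c h1 h2 hx]
    rw [abs_of_neg h0] at hs1 hs3 ⊢
    have h4 := hE (-s) (by linarith) hs1 _ hy
    rw [h3] at h4
    generalize fl c s x = y at *
    have h5 : ‖y - x‖ < δ' := by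
      have h6 := norm_add_le (x - y - (-s) • X y) ((-s) • X y)
      rw [sub_add_cancel, norm_smul, Real.norm_of_nonneg (by linarith : (0 : ℝ) ≤ -s)] at h6
      have h7 : (-s) * ‖X y‖ ≤ (-s) * M := mul_le_mul_of_nonneg_left (hMX y hy) (by linarith)
      rw [lt_div_iff₀ (by positivity)] at hs3
      rw [norm_sub_rev]
      linarith
    have h6 := hX' (x := y) (by rwa [dist_eq_norm])
    rw [dist_eq_norm] at h6
    have h7 : y - x - s • X x = -((x - y - (-s) • X y) + (-s) • (X y - X x)) := by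
      rw [smul_sub]
      simp only [neg_smul]
      abel
    rw [h7, norm_neg]
    refine (norm_add_le _ _).trans ?_
    rw [norm_smul, Real.norm_of_nonneg (by linarith : (0 : ℝ) ≤ -s)]
    have h8 : (-s) * ‖X y - X x‖ ≤ (-s) * (ε / 2) :=
      mul_le_mul_of_nonneg_left h6.le (by linarith)
    linarith

end main

end EulAux

open EulAux in
theorem tEul (h1 : S_CdB) (h2 : S_Itr) : S_Eul := by
  intro V _ _ _ D hH g h t X hA ht htl hcv
  have c : Ctx D g h t X := ⟨hH, hA, ht, htl, hcv⟩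
  refine ⟨X_dif c, fl c, ?_⟩
  refine ⟨fl_dif c h1 h2, fun s x hx => (fl_tends c h1 h2 s hx).1,
    fun x hx => fl_zero c h1 h2 hx, fun s u x hx => fl_add c h1 h2 s u hx, fun x hx s => ?_⟩
  have hy := (fl_tends c h1 h2 s hx).1
  have h3 := fl_der0 c h1 h2 hy
  have h4 : HasDerivAt (fun u => fl c (u - s) (fl c s x)) (X (fl c s x)) s := by
    refine HasDerivAt.comp_sub_const (f := fun u => fl c u (fl c s x)) s s ?_
    rw [sub_self]
    exact h3
  refine h4.congr_of_eventuallyEq (Eventually.of_forall fun u => ?_)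
  show fl c u x = fl c (u - s) (fl c s x)
  rw [← fl_add c h1 h2 _ _ hx, sub_add_cancel]

end KVB
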