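import Pool.Agent.Lib.KV.B.SpecA

set_option autoImplicit false

open Set Filter Topology Metric

namespace KVB

open KP

namespace FlBAux

variable {V : Type} [NormedAddCommGroup V] [NormedSpace ℂ V] {D : Set V} {X : V → V}
  {φ : ℝ → V → V}

/-- The flow transports its own field. -/
theorem fderiv_flow (hD : IsOpen D) (hφ : Flow D X φ) (s : ℝ) {x : V} (hx : x ∈ D) :
    fderiv ℂ (φ s) x (X x) = X (φ s x) := by
  have h1 : HasDerivAt (fun u : ℝ => φ s (φ u x)) (fderiv ℂ (φ s) x (X x)) 0 := by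
    have hd : DifferentiableAt ℂ (φ s) x := (hφ.dif s x hx).differentiableAt (hD.mem_nhds hx)
    have h2 : HasFDerivAt (φ s) ((fderiv ℂ (φ s) x).restrictScalars ℝ) (φ 0 x) := by
      rw [hφ.zero x hx]
      exact hd.hasFDerivAt.restrictScalars ℝ
    have h3 := hφ.der x hx 0
    have h4 := h2.comp_hasDerivAt (0 : ℝ) h3
    rw [hφ.zero x hx] at h4
    exact h4
  have h2 : HasDerivAt (fun u : ℝ => φ s (φ u x)) (X (φ s x)) 0 := by
    have h3 := hφ.der (φ s x) (hφ.maps s hx) 0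
    rw [hφ.zero _ (hφ.maps s hx)] at h3
    refine h3.congr_of_eventuallyEq (Eventually.of_forall fun u => ?_)
    change φ s (φ u x) = φ u (φ s x)
    rw [← hφ.add s u x hx, ← hφ.add u s x hx, add_comm]
  exact h1.unique h2

theorem hasDerivAt_comp (hD : IsOpen D) (hφ : Flow D X φ) {f : V → ℂ}
    (hf : DifferentiableOn ℂ f D) {x : V} (hx : x ∈ D) (s : ℝ) :
    HasDerivAt (fun u : ℝ => f (φ u x)) (fderiv ℂ f (φ s x) (X (φ s x))) s := by
  have hm := hφ.maps s hx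
  have hd : DifferentiableAt ℂ f (φ s x) := (hf _ hm).differentiableAt (hD.mem_nhds hm)
  exact (hd.hasFDerivAt.restrictScalars ℝ).comp_hasDerivAt s (hφ.der x hx s)

theorem cd_flow_le (h2 : S_CnB) (hD : IsOpen D) (hφ : Flow D X φ) {x : V} (hx : x ∈ D)
    (t : ℝ) : cd D x (φ t x) ≤ |t| * cn D x (X x) := by
  obtain ⟨hn, -, -, -, hinv, -⟩ := h2 V D hD
  refine cd_le fun f hf => ?_
  have hb : ∀ s : ℝ, ‖fderiv ℂ f (φ s x) (X (φ s x))‖ ≤ cn D x (X x) := by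
    intro s
    have h3 := (hn (φ s x) (hφ.maps s hx) (X (φ s x))).2 f hf
    have h4 := hinv (φ s) (φ (-s)) (hφ.aut s) x hx (X x)
    rw [fderiv_flow hD hφ s hx] at h4
    rwa [h4] at h3
  have h5 := Convex.norm_image_sub_le_of_norm_hasDerivWithin_le (𝕜 := ℝ)
    (f := fun u : ℝ => f (φ u x)) (s := univ) (x := t) (y := 0)
    (fun s _ => (hasDerivAt_comp hD hφ hf.1 hx s).hasDerivWithinAt)
    (fun s _ => hb s) convex_univ (mem_univ _) (mem_univ _)
  simp only [hφ.zero x hx, zero_sub, norm_neg, Real.norm_eq_abs] at h5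
  rw [mul_comm]
  exact h5

/-- Part (a). -/
theorem partA (h1 : S_CdB) (h2 : S_CnB) (hH : Hyp D) (hX : DifferentiableOn ℂ X D)
    (hφ : Flow D X φ) (Q : Set V) (hQD : Q ⊆ D) (hQ : IsCompact Q) (T : ℝ) :
    ∃ Q' ⊆ D, IsCompact Q' ∧ ∀ t : ℝ, |t| ≤ T → ∀ x ∈ Q, φ t x ∈ Q' := by
  obtain ⟨-, -, hcd, -, -⟩ := h1 V D hH.opn
  obtain ⟨hn, -, -, -, -, hcont⟩ := h2 V D hH.opn
  obtain ⟨r0, hr0, hbc⟩ := hH.bc
  -- the bound for `cn`
  obtain ⟨C, hC⟩ : ∃ C : ℝ, ∀ x ∈ Q, cn D x (X x) ≤ C := by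
    have hc : ContinuousOn (fun x => cn D x (X x)) Q := by
      have h3 : ContinuousOn (fun x : V => (x, X x)) Q :=
        continuousOn_id.prodMk (hX.continuousOn.mono hQD)
      exact hcont.comp h3 (fun x hx => ⟨hQD hx, mem_univ _⟩)
    obtain ⟨C, hC⟩ := hQ.exists_bound_of_continuousOn hc
    exact ⟨C, fun x hx => (le_abs_self _).trans (hC x hx)⟩
  -- the number of steps
  obtain ⟨n, hn0⟩ := exists_nat_gt (max 0 (|T| * |C| / r0))
  have hn1 : (0 : ℝ) < n := (le_max_left _ _).trans_lt hn0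
  have hn2 : |T| * |C| / n ≤ r0 := by
    have h3 : |T| * |C| / r0 < n := (le_max_right _ _).trans_lt hn0
    rw [div_lt_iff₀ hr0] at h3
    rw [div_le_iff₀ hn1]
    linarith
  have hstep : ∀ t : ℝ, |t| ≤ T → ∀ x ∈ Q, cd D x (φ (t / n) x) ≤ r0 := by
    intro t ht x hx
    have hx' := hQD hx
    refine (cd_flow_le h2 hH.opn hφ hx' _).trans (le_trans ?_ hn2)
    rw [abs_div, abs_of_pos hn1, div_mul_eq_mul_div]
    refine div_le_div_of_nonneg_right ?_ hn1.le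
    refine mul_le_mul (ht.trans (le_abs_self _)) ((hC x hx).trans (le_abs_self _))
      (hn x hx' _).1 (abs_nonneg _)
  have hind : ∀ i : ℕ, ∃ Q' ⊆ D, IsCompact Q' ∧ ∀ t : ℝ, |t| ≤ T → ∀ x ∈ Q,
      φ (i * (t / n)) x ∈ Q' := by
    intro i
    induction i with
    | zero =>
      refine ⟨Q, hQD, hQ, fun t _ x hx => ?_⟩
      rw [Nat.cast_zero, zero_mul, hφ.zero x (hQD hx)]
      exact hx
    | succ i ih =>
      obtain ⟨Q1, hQ1D, hQ1, h3⟩ := ih
      obtain ⟨Q2, hQ2D, hQ2, h4⟩ := hbc Q1 hQ1D hQ1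
      refine ⟨Q2, hQ2D, hQ2, fun t ht x hx => ?_⟩
      have hx' := hQD hx
      have h5 : φ ((i + 1 : ℕ) * (t / n)) x = φ (i * (t / n)) (φ (t / n) x) := by
        rw [← hφ.add _ _ x hx']
        congr 1
        push_cast
        ring
      rw [h5]
      refine h4 _ (h3 t ht x hx) _ (hφ.maps _ (hφ.maps _ hx')) ?_
      exact (hcd _ (hφ.dif _) (hφ.maps _) x hx' _ (hφ.maps _ hx')).trans (hstep t ht x hx)
  obtain ⟨Q', hQ'D, hQ', h3⟩ := hind n
  refine ⟨Q', hQ'D, hQ', fun t ht x hx => ?_⟩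
  have h4 := h3 t ht x hx
  rwa [mul_div_cancel₀ _ hn1.ne'] at h4

/-- The mean value inequality for the flow. -/
theorem norm_flow_sub_le (hφ : Flow D X φ) {x : V} (hx : x ∈ D) {S : Set ℝ} (hS : Convex ℝ S)
    {C : ℝ} (hC : ∀ s ∈ S, ‖X (φ s x)‖ ≤ C) {t t' : ℝ} (ht : t ∈ S) (ht' : t' ∈ S) :
    ‖φ t' x - φ t x‖ ≤ C * |t' - t| := by
  have := Convex.norm_image_sub_le_of_norm_hasDerivWithin_le (𝕜 := ℝ)
    (f := fun u : ℝ => φ u x) (s := S) (x := t) (y := t')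
    (fun s _ => (hφ.der x hx s).hasDerivWithinAt) hC hS ht ht'
  simpa [Real.norm_eq_abs] using this

theorem bound_field (hX : DifferentiableOn ℂ X D) {Q : Set V} (hQD : Q ⊆ D) (hQ : IsCompact Q) :
    ∃ C : ℝ, 0 ≤ C ∧ ∀ x ∈ Q, ‖X x‖ ≤ C := by
  obtain ⟨C, hC⟩ := hQ.exists_bound_of_continuousOn (hX.continuousOn.mono hQD)
  exact ⟨|C|, abs_nonneg _, fun x hx => (hC x hx).trans (le_abs_self _)⟩

/-- The field is Lipschitz near compact sets. -/
theorem lip_field [FiniteDimensional ℂ V] (hD : IsOpen D) (hX : DifferentiableOn ℂ X D)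
    {Q : Set V} (hQD : Q ⊆ D) (hQ : IsCompact Q) :
    ∃ r : ℝ, 0 < r ∧ ∃ L : ℝ, 0 ≤ L ∧ ∀ x ∈ Q, ∀ y : V, ‖y - x‖ < r →
      ‖X y - X x‖ ≤ L * ‖y - x‖ := by
  have : ProperSpace V := FiniteDimensional.proper ℂ V
  obtain ⟨δ, hδ, hδD⟩ := hQ.exists_cthickening_subset_open hD hQD
  obtain ⟨M, hM0, hM⟩ := bound_field hX hδD hQ.cthickening
  refine ⟨δ / 2, by positivity, M / (δ - δ / 2), div_nonneg hM0 (by linarith), ?_⟩
  intro x hx y hy
  have hsub : ball x δ ⊆ cthickening δ Q :=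
    ball_subset_closedBall.trans (closedBall_subset_cthickening hx δ)
  have hf : DifferentiableOn ℂ X (ball x δ) := hX.mono (hsub.trans hδD)
  refine Convex.norm_image_sub_le_of_norm_fderiv_le (𝕜 := ℂ) (s := ball x (δ / 2)) ?_ ?_
    (convex_ball x (δ / 2)) (mem_ball_self (by positivity)) (by rwa [mem_ball, dist_eq_norm])
  · intro u hu
    have hu' : u ∈ ball x δ := ball_subset_ball (by linarith) hu
    exact (hf u hu').differentiableAt (isOpen_ball.mem_nhds hu')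
  · intro u hu
    exact Pool.Agent.Lib.Osgood.norm_fderiv_le' (by linarith) hf (fun w hw => hM w (hsub hw))
      (ball_subset_closedBall hu)

/-- Part (b). -/
theorem partB [FiniteDimensional ℂ V] (h1 : S_CdB) (h2 : S_CnB) (hH : Hyp D)
    (hX : DifferentiableOn ℂ X D) (hφ : Flow D X φ) (Q : Set V) (hQD : Q ⊆ D)
    (hQ : IsCompact Q) :
    ∃ C : ℝ, ∀ t : ℝ, |t| ≤ 1 → ∀ x ∈ Q, ‖φ t x - x - t • X x‖ ≤ C * t ^ 2 := by
  obtain ⟨Q', hQ'D, hQ', hQ1⟩ := partA h1 h2 hH hX hφ Q hQD hQ 1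
  obtain ⟨C1, hC10, hC1⟩ := bound_field hX hQ'D hQ'
  obtain ⟨r, hr, L, hL0, hL⟩ := lip_field hH.opn hX hQD hQ
  have hmv : ∀ x ∈ Q, ∀ t : ℝ, |t| ≤ 1 → ‖φ t x - x‖ ≤ C1 * |t| := by
    intro x hx t ht
    have h3 := norm_flow_sub_le hφ (hQD hx) (S := Icc (-1) 1) (convex_Icc _ _) (C := C1)
      (fun s hs => hC1 _ (hQ1 s (abs_le.2 hs) x hx)) (t := 0) (t' := t)
      ⟨by norm_num, by norm_num⟩ (abs_le.1 ht)
    rwa [hφ.zero x (hQD hx), sub_zero] at h3
  refine ⟨L * C1 + 2 * C1 * C1 / r, fun t ht x hx => ?_⟩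
  have hx' := hQD hx
  have ht2 : |t| * |t| = t ^ 2 := by rw [← sq, sq_abs]
  rcases lt_or_ge (C1 * |t|) r with hlt | hge
  · have hder : ∀ s ∈ Icc (-|t|) |t|, HasDerivWithinAt (fun u : ℝ => φ u x - x - u • X x)
        (X (φ s x) - X x) (Icc (-|t|) |t|) s := by
      intro s _
      have h3 := ((hφ.der x hx' s).sub_const x).sub ((hasDerivAt_id s).smul_const (X x))
      rw [one_smul] at h3
      exact h3.hasDerivWithinAt
    have hbd : ∀ s ∈ Icc (-|t|) |t|, ‖X (φ s x) - X x‖ ≤ L * (C1 * |t|) := by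
      intro s hs
      have hs' : |s| ≤ |t| := abs_le.2 hs
      have h3 := hmv x hx s (hs'.trans ht)
      have h4 : C1 * |s| ≤ C1 * |t| := mul_le_mul_of_nonneg_left hs' hC10
      refine (hL x hx _ ((h3.trans h4).trans_lt hlt)).trans ?_
      exact mul_le_mul_of_nonneg_left (h3.trans h4) hL0
    have h5 := Convex.norm_image_sub_le_of_norm_hasDerivWithin_le (𝕜 := ℝ)
      (x := 0) (y := t) hder hbd (convex_Icc _ _)
      ⟨neg_nonpos.2 (abs_nonneg t), abs_nonneg t⟩ ⟨neg_abs_le t, le_abs_self t⟩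
    simp only [hφ.zero x hx', sub_self, zero_smul, sub_zero, Real.norm_eq_abs] at h5
    refine h5.trans ?_
    have h6 : L * (C1 * |t|) * |t| = L * C1 * t ^ 2 := by rw [← ht2]; ring
    rw [h6]
    refine mul_le_mul_of_nonneg_right ?_ (sq_nonneg t)
    have : 0 ≤ 2 * C1 * C1 / r := by positivity
    linarith
  · have h3 := hmv x hx t ht
    have h4 : ‖X x‖ ≤ C1 := by
      have := hC1 _ (hQ1 0 (by simp) x hx)
      rwa [hφ.zero x hx'] at this
    have h5 : ‖φ t x - x - t • X x‖ ≤ 2 * C1 * |t| := by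
      calc ‖φ t x - x - t • X x‖ ≤ ‖φ t x - x‖ + ‖t • X x‖ := norm_sub_le _ _
        _ ≤ C1 * |t| + |t| * C1 := by
          rw [norm_smul, Real.norm_eq_abs]
          exact add_le_add h3 (mul_le_mul_of_nonneg_left h4 (abs_nonneg t))
        _ = 2 * C1 * |t| := by ring
    refine h5.trans ?_
    have h6 : 2 * C1 * |t| ≤ 2 * C1 * C1 / r * t ^ 2 := by
      rw [← ht2, div_mul_eq_mul_div, le_div_iff₀ hr]
      have h7 : 0 ≤ 2 * C1 * |t| := by positivity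
      calc 2 * C1 * |t| * r ≤ 2 * C1 * |t| * (C1 * |t|) := mul_le_mul_of_nonneg_left hge h7
        _ = 2 * C1 * C1 * (|t| * |t|) := by ring
    refine h6.trans ?_
    refine mul_le_mul_of_nonneg_right ?_ (sq_nonneg t)
    have : 0 ≤ L * C1 := mul_nonneg hL0 hC10
    linarith

/-- Part (c). -/
theorem partC [FiniteDimensional ℂ V] (h1 : S_CdB) (h2 : S_CnB) (hH : Hyp D)
    (hX : DifferentiableOn ℂ X D) (hφ : Flow D X φ) :
    ContinuousOn (fun p : ℝ × V => φ p.1 p.2) (univ ×ˢ D) := by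
  have : ProperSpace V := FiniteDimensional.proper ℂ V
  rintro ⟨t, x⟩ ⟨-, hx⟩
  change x ∈ D at hx
  refine ContinuousAt.continuousWithinAt ?_
  obtain ⟨ρ, hρ, hρD⟩ := Metric.nhds_basis_closedBall.mem_iff.1 (hH.opn.mem_nhds hx)
  obtain ⟨Q', hQ'D, hQ', hQ1⟩ :=
    partA h1 h2 hH hX hφ (closedBall x ρ) hρD (isCompact_closedBall x ρ) (|t| + 1)
  obtain ⟨C, hC0, hC⟩ := bound_field hX hQ'D hQ'
  have hc : ContinuousAt (φ t) x := (hφ.dif t).continuousOn.continuousAt (hH.opn.mem_nhds hx)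
  have e1 : Tendsto (fun p : ℝ × V => φ t p.2) (𝓝 (t, x)) (𝓝 (φ t x)) :=
    hc.tendsto.comp (continuous_snd.tendsto (t, x))
  have e2 : Tendsto (fun p : ℝ × V => φ p.1 p.2 - φ t p.2) (𝓝 (t, x)) (𝓝 0) := by
    have e3 : Tendsto (fun p : ℝ × V => C * |p.1 - t|) (𝓝 (t, x)) (𝓝 0) := by
      have : Continuous fun p : ℝ × V => C * |p.1 - t| := by fun_prop
      have h3 := this.tendsto (t, x)
      simpa using h3
    refine squeeze_zero_norm' ?_ e3
    have h4 : ∀ᶠ p : ℝ × V in 𝓝 (t, x), p.1 ∈ Icc (t - 1) (t + 1) ∧ p.2 ∈ closedBall x ρ := by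
      have h5 : ∀ᶠ a : ℝ in 𝓝 t, a ∈ Icc (t - 1) (t + 1) :=
        Icc_mem_nhds (by linarith) (by linarith)
      have h6 : ∀ᶠ b : V in 𝓝 x, b ∈ closedBall x ρ := closedBall_mem_nhds x hρ
      rw [nhds_prod_eq]
      exact h5.prod_mk h6
    filter_upwards [h4] with p hp
    refine norm_flow_sub_le hφ (hρD hp.2) (convex_Icc (t - 1) (t + 1)) (C := C) ?_
      ⟨by linarith, by linarith⟩ hp.1
    intro s hs
    refine hC _ (hQ1 s ?_ _ hp.2)
    rw [abs_le]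
    have h5 := neg_abs_le t
    have h6 := le_abs_self t
    constructor
    · linarith [hs.1]
    · linarith [hs.2]
  have e4 := e1.add e2
  rw [add_zero] at e4
  refine e4.congr fun p => ?_
  abel

end FlBAux

theorem tFlB (h1 : S_CdB) (h2 : S_CnB) : S_FlB := by
  intro V _ _ _ D hH X φ hX hφ
  exact ⟨FlBAux.partA h1 h2 hH hX hφ, FlBAux.partB h1 h2 hH hX hφ,
    FlBAux.partC h1 h2 hH hX hφ⟩

end KVB
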