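import Pool.Agent.Lib.KV.B.SpecA

/-!
# KV, part B, module HypB: the soft hypotheses from a bounded realization and a cocompact group
-/

set_option autoImplicit false

open Set Filter Topology Metric

namespace KVB

open KP

/-- A holomorphic map on an open set is Lipschitz on compact subsets. -/
private theorem hypbLip {E F : Type} [NormedAddCommGroup E] [NormedSpace ℂ E]
    [FiniteDimensional ℂ E] [NormedAddCommGroup F] [NormedSpace ℂ F] {f : E → F} {U : Set E}
    (hU : IsOpen U) (hf : DifferentiableOn ℂ f U) {K : Set E} (hK : IsCompact K) (hKU : K ⊆ U) :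
    ∃ C > 0, ∀ u ∈ K, ∀ v ∈ K, ‖f u - f v‖ ≤ C * ‖u - v‖ := by
  have : ProperSpace E := FiniteDimensional.proper ℂ E
  obtain ⟨δ, hδ, hδU⟩ := hK.exists_cthickening_subset_open hU hKU
  have hK1 : IsCompact (cthickening δ K) := hK.cthickening
  obtain ⟨C1, hC1⟩ := hK1.exists_bound_of_continuousOn
    ((Pool.Agent.Lib.Osgood.continuousOn_fderiv hU hf).mono hδU)
  obtain ⟨M, hM⟩ := hK.exists_bound_of_continuousOn (hf.continuousOn.mono hKU)
  refine ⟨max C1 (2 * M / δ) + 1 + |C1| + |2 * M / δ|, ?_, ?_⟩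
  · have h1 : C1 ≤ max C1 (2 * M / δ) := le_max_left _ _
    have h2 := neg_abs_le C1
    have h3 := abs_nonneg (2 * M / δ)
    linarith
  intro u hu v hv
  have e1 : C1 ≤ max C1 (2 * M / δ) + 1 + |C1| + |2 * M / δ| := by
    have h1 : C1 ≤ max C1 (2 * M / δ) := le_max_left _ _
    have h2 := abs_nonneg C1
    have h3 := abs_nonneg (2 * M / δ)
    linarith
  have e2 : 2 * M / δ ≤ max C1 (2 * M / δ) + 1 + |C1| + |2 * M / δ| := by
    have h1 : 2 * M / δ ≤ max C1 (2 * M / δ) := le_max_right _ _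
    have h2 := abs_nonneg C1
    have h3 := abs_nonneg (2 * M / δ)
    linarith
  by_cases huv : ‖u - v‖ < δ
  · have hball : ball u δ ⊆ cthickening δ K := by
      intro w hw
      exact mem_cthickening_of_dist_le w u δ K hu (mem_ball.1 hw).le
    have h1 : ‖f u - f v‖ ≤ C1 * ‖u - v‖ := by
      refine (convex_ball u δ).norm_image_sub_le_of_norm_fderiv_le (𝕜 := ℂ) (fun w hw => ?_)
        (fun w hw => hC1 w (hball hw)) ?_ (mem_ball_self hδ)
      · exact (hf w (hδU (hball hw))).differentiableAt (hU.mem_nhds (hδU (hball hw)))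
      · rw [mem_ball, dist_eq_norm, norm_sub_rev]
        exact huv
    exact h1.trans (mul_le_mul_of_nonneg_right e1 (norm_nonneg _))
  · push Not at huv
    have h1 : ‖f u - f v‖ ≤ 2 * M := by
      have := norm_sub_le (f u) (f v)
      have h2 := hM u hu
      have h3 := hM v hv
      linarith
    have hM0 : 0 ≤ 2 * M / δ := by
      have := (norm_nonneg _).trans (hM u hu)
      positivity
    calc ‖f u - f v‖ ≤ 2 * M := h1
      _ = 2 * M / δ * δ := by rw [div_mul_cancel₀ _ hδ.ne']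
      _ ≤ 2 * M / δ * ‖u - v‖ := mul_le_mul_of_nonneg_left huv hM0
      _ ≤ _ := mul_le_mul_of_nonneg_right e2 (norm_nonneg _)

private theorem hypbDet {V : Type} [NormedAddCommGroup V] [NormedSpace ℂ V]
    (L M : V →L[ℂ] V) (h : L.comp M = ContinuousLinearMap.id ℂ V) : rdet L ≠ 0 := by
  have h1 : (L.restrictScalars ℝ).det * (M.restrictScalars ℝ).det = 1 := by
    rw [ContinuousLinearMap.det, ContinuousLinearMap.det, ← LinearMap.det_comp]
    have h2 : ((L.restrictScalars ℝ : V →L[ℝ] V) : V →ₗ[ℝ] V) ∘ₗ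
        ((M.restrictScalars ℝ : V →L[ℝ] V) : V →ₗ[ℝ] V) = LinearMap.id := by
      refine LinearMap.ext fun x => ?_
      exact congrArg (fun T : V →L[ℂ] V => T x) h
    rw [h2, LinearMap.det_id]
  rw [rdet]
  exact abs_ne_zero.2 (left_ne_zero_of_mul (h1.trans_ne one_ne_zero))

theorem tHypB (h1 : S_CdB) : S_HypB := by
  intro V _ _ _ D hD hconn hne n b b' R hb hbD hb' hinv hR Γ _ ρ hρ
  have : ProperSpace V := FiniteDimensional.proper ℂ V
  obtain ⟨_, _, hcd, _, _⟩ := h1 V D hD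
  have hR0 : 0 ≤ R := by
    obtain ⟨x, hx⟩ := hne
    exact (norm_nonneg _).trans (hR x hx)
  set R' : ℝ := R + 1 with hR'
  have hR'0 : 0 < R' := by positivity
  have hRR : ∀ x ∈ D, ‖b x‖ ≤ R' := fun x hx => (hR x hx).trans (by rw [hR']; linarith)
  -- (A)
  have hA : ∀ x ∈ D, ∀ y ∈ D, ‖b x - b y‖ ≤ R' * cd D x y := by
    intro x hx y hy
    have h0 : 0 ≤ cd D x y := le_trans (norm_nonneg _) (le_cd hx hy zero_mem_UF)
    rw [pi_norm_le_iff_of_nonneg (by positivity)]
    intro i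
    have hf : (fun x => (R' : ℂ)⁻¹ * b x i) ∈ UF D := by
      refine ⟨?_, fun z hz => ?_⟩
      · exact ((differentiableOn_pi.1 hb i).const_mul _)
      · rw [norm_mul, norm_inv, Complex.norm_real, Real.norm_eq_abs, abs_of_pos hR'0,
          inv_mul_le_iff₀ hR'0, mul_one]
        exact (norm_le_pi_norm (b z) i).trans (hRR z hz)
    have h2 := le_cd hx hy hf
    rw [← mul_sub, norm_mul, norm_inv, Complex.norm_real, Real.norm_eq_abs, abs_of_pos hR'0,
      inv_mul_le_iff₀ hR'0] at h2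
    exact h2
  have hmap : ∀ u ∈ b '' D, b' u ∈ D := by
    rintro _ ⟨x, hx, rfl⟩
    rw [hinv x hx]
    exact hx
  refine ⟨hD, hconn, hne, ?_, ?_, ?_⟩
  · -- bc
    obtain ⟨K, hKD, hK, hcoc⟩ := hρ.coc
    obtain ⟨δ, hδ, hδD⟩ := hK.exists_cthickening_subset_open hD hKD
    have hK1 : IsCompact (cthickening δ K) := hK.cthickening
    have hbK1 : IsCompact (b '' cthickening δ K) :=
      hK1.image_of_continuousOn (hb.continuousOn.mono hδD)
    obtain ⟨r, hr, hrD⟩ := hbK1.exists_cthickening_subset_open hbD (image_mono hδD)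
    have hK' : IsCompact (b' '' cthickening r (b '' cthickening δ K)) :=
      hbK1.cthickening.image_of_continuousOn (hb'.continuousOn.mono hrD)
    have hK'D : b' '' cthickening r (b '' cthickening δ K) ⊆ D := by
      rintro _ ⟨u, hu, rfl⟩
      exact hmap u (hrD hu)
    have hkey : ∀ x ∈ cthickening δ K, ∀ y ∈ D, cd D x y ≤ r / R' →
        y ∈ b' '' cthickening r (b '' cthickening δ K) := by
      intro x hx y hy hxy
      refine ⟨b y, ?_, hinv y hy⟩
      refine mem_cthickening_of_dist_le _ (b x) r _ ⟨x, hx, rfl⟩ ?_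
      rw [dist_comm, dist_eq_norm]
      refine (hA x (hδD hx) y hy).trans ?_
      calc R' * cd D x y ≤ R' * (r / R') := mul_le_mul_of_nonneg_left hxy hR'0.le
        _ = r := by field_simp
    refine ⟨r / R', by positivity, fun Q hQD hQ => ?_⟩
    obtain ⟨t, ht⟩ := hQ.elim_finite_subcover
      (fun γ : Γ => D ∩ ρ γ ⁻¹' thickening δ K)
      (fun γ => (hρ.dif γ).continuousOn.isOpen_inter_preimage hD isOpen_thickening)
      (by
        intro x hx
        obtain ⟨γ, hγ⟩ := hcoc x (hQD hx)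
        exact mem_iUnion.2 ⟨γ, hQD hx, self_subset_thickening hδ K hγ⟩)
    refine ⟨⋃ γ ∈ t, ρ γ⁻¹ '' (b' '' cthickening r (b '' cthickening δ K)), ?_, ?_, ?_⟩
    · refine iUnion₂_subset fun γ _ => ?_
      rintro _ ⟨y, hy, rfl⟩
      exact hρ.maps _ (hK'D hy)
    · exact t.isCompact_biUnion fun γ _ =>
        hK'.image_of_continuousOn ((hρ.dif _).continuousOn.mono hK'D)
    · intro x hx y hy hxy
      obtain ⟨γ, hγt, hxD, hγ⟩ := mem_iUnion₂.1 (ht hx)
      refine mem_iUnion₂.2 ⟨γ, hγt, ρ γ y, ?_, (hρ.aut γ).hg y hy⟩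
      refine hkey (ρ γ x) (thickening_subset_cthickening δ K hγ) _ (hρ.maps γ hy) ?_
      exact (hcd (ρ γ) (hρ.dif γ) (hρ.maps γ) x hxD y hy).trans hxy
  · -- lo
    intro Q hQD hQ
    have hbQ : IsCompact (b '' Q) := hQ.image_of_continuousOn (hb.continuousOn.mono hQD)
    obtain ⟨C, hC, hL⟩ := hypbLip hbD hb' hbQ (image_mono hQD)
    refine ⟨(C * R')⁻¹, by positivity, fun x hx y hy => ?_⟩
    rw [inv_mul_le_iff₀ (by positivity)]
    have h2 := hL (b x) ⟨x, hx, rfl⟩ (b y) ⟨y, hy, rfl⟩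
    rw [hinv x (hQD hx), hinv y (hQD hy)] at h2
    calc ‖x - y‖ ≤ C * ‖b x - b y‖ := h2
      _ ≤ C * (R' * cd D x y) := mul_le_mul_of_nonneg_left (hA x (hQD hx) y (hQD hy)) hC.le
      _ = C * R' * cd D x y := by ring
  · -- nd
    intro x hx
    have hbx : HasFDerivAt b (fderiv ℂ b x) x :=
      ((hb x hx).differentiableAt (hD.mem_nhds hx)).hasFDerivAt
    have hb'x : HasFDerivAt b' (fderiv ℂ b' (b x)) (b x) :=
      ((hb' (b x) ⟨x, hx, rfl⟩).differentiableAt (hbD.mem_nhds ⟨x, hx, rfl⟩)).hasFDerivAt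
    have e1 : (fderiv ℂ b' (b x)).comp (fderiv ℂ b x) = ContinuousLinearMap.id ℂ V := by
      refine (hb'x.comp x hbx).unique ?_
      refine (hasFDerivAt_id x).congr_of_eventuallyEq ?_
      filter_upwards [hD.mem_nhds hx] with y hy
      exact hinv y hy
    let ι : Cn n →L[ℂ] V := fderiv ℂ b' (b x)
    set ε : ℝ := (‖ι‖ * R' + 1)⁻¹ with hε
    have hε0 : 0 < ε := by positivity
    refine ⟨fun y => (ε : ℂ) • ι (b y), ⟨?_, ?_⟩, ?_⟩
    · exact (ι.differentiable.comp_differentiableOn hb).const_smul _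
    · intro y hy
      rw [norm_smul, Complex.norm_real, Real.norm_eq_abs, abs_of_pos hε0, hε,
        inv_mul_le_iff₀ (by positivity), mul_one]
      calc ‖ι (b y)‖ ≤ ‖ι‖ * ‖b y‖ := ι.le_opNorm _
        _ ≤ ‖ι‖ * R' := mul_le_mul_of_nonneg_left (hRR y hy) (norm_nonneg _)
        _ ≤ ‖ι‖ * R' + 1 := by linarith
    · have hd : HasFDerivAt (fun y => (ε : ℂ) • ι (b y))
          ((ε : ℂ) • ι.comp (fderiv ℂ b x)) x :=
        (ι.hasFDerivAt.comp x hbx).const_smul (ε : ℂ)
      rw [hd.fderiv, e1]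
      refine hypbDet _ ((ε : ℂ)⁻¹ • ContinuousLinearMap.id ℂ V) ?_
      refine ContinuousLinearMap.ext fun v => ?_
      have hεc : (ε : ℂ) ≠ 0 := by exact_mod_cast hε0.ne'
      show (ε : ℂ) • ((ε : ℂ)⁻¹ • v) = v
      rw [smul_smul, mul_inv_cancel₀ hεc, one_smul]

end KVB
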