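import Pool.Agent.Lib.KV.B.SpecA

set_option autoImplicit false

open Set Filter Topology Metric

namespace KVB

open KP

namespace IsoAux

variable {V : Type} [NormedAddCommGroup V] [NormedSpace ℂ V]

private theorem fix {D : Set V} (hD : IsOpen D) {X : V → V} {φ : ℝ → V → V} (h : Flow D X φ)
    {p : V} (hp : p ∈ D) (hX : X p = 0) (t : ℝ) : φ t p = p := by
  have hder : ∀ s : ℝ, X (φ s p) = 0 := by
    intro s
    have h1 : HasDerivAt (fun u : ℝ => φ u p) (X (φ 0 p)) 0 := h.der p hp 0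
    have h2 : HasFDerivAt (φ s) (fderiv ℂ (φ s) p) p :=
      ((h.dif s p hp).differentiableAt (hD.mem_nhds hp)).hasFDerivAt
    have h3 : HasFDerivAt (φ s) ((fderiv ℂ (φ s) p).restrictScalars ℝ) (φ 0 p) := by
      rw [h.zero p hp]
      exact h2.restrictScalars ℝ
    have h4 := h3.comp_hasDerivAt (0 : ℝ) h1
    have h5 : HasDerivAt (fun u : ℝ => φ (s + u) p) (X (φ (s + 0) p)) 0 :=
      (h.der p hp (s + 0)).comp_const_add s 0
    have h6 : (fun u : ℝ => φ (s + u) p) = (φ s ∘ fun u => φ u p) := by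
      funext u
      exact h.add s u p hp
    rw [h6] at h5
    have h7 := h5.unique h4
    rw [add_zero, h.zero p hp, hX, map_zero] at h7
    exact h7
  have hc : ∀ s : ℝ, HasDerivAt (fun u : ℝ => φ u p) 0 s := by
    intro s
    have := h.der p hp s
    rwa [hder s] at this
  have h8 : φ t p = φ 0 p :=
    is_const_of_deriv_eq_zero (f := fun u : ℝ => φ u p) (fun s => (hc s).differentiableAt)
      (fun s => (hc s).deriv) t 0
  rw [h8, h.zero p hp]

private theorem Lmul {D : Set V} (hD : IsOpen D) {X : V → V} {φ : ℝ → V → V} (h : Flow D X φ)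
    {p : V} (hp : p ∈ D) (hf : ∀ t, φ t p = p) (s t : ℝ) :
    fderiv ℂ (φ (s + t)) p = fderiv ℂ (φ s) p * fderiv ℂ (φ t) p := by
  have h0 : ∀ u, HasFDerivAt (φ u) (fderiv ℂ (φ u) p) p := fun u =>
    ((h.dif u p hp).differentiableAt (hD.mem_nhds hp)).hasFDerivAt
  have h2 : HasFDerivAt (φ s) (fderiv ℂ (φ s) p) (φ t p) := by
    rw [hf t]
    exact h0 s
  have h3 := h2.comp p (h0 t)
  have h4 : φ (s + t) =ᶠ[𝓝 p] (φ s ∘ φ t) := by
    filter_upwards [hD.mem_nhds hp] with x hx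
    exact h.add s t x hx
  exact (h3.congr_of_eventuallyEq h4).fderiv

private theorem Lzero {D : Set V} (hD : IsOpen D) {X : V → V} {φ : ℝ → V → V} (h : Flow D X φ)
    {p : V} (hp : p ∈ D) : fderiv ℂ (φ 0) p = 1 := by
  have h4 : φ 0 =ᶠ[𝓝 p] id := by
    filter_upwards [hD.mem_nhds hp] with x hx
    exact h.zero x hx
  exact ((hasFDerivAt_id p).congr_of_eventuallyEq h4).fderiv

private theorem Lder0 [FiniteDimensional ℂ V] (h1 : S_FlB) {D : Set V} (hy : Hyp D) {X : V → V}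
    {φ : ℝ → V → V} (hX : DifferentiableOn ℂ X D) (h : Flow D X φ) {p : V} (hp : p ∈ D) :
    HasDerivAt (fun t : ℝ => fderiv ℂ (φ t) p) (fderiv ℂ X p) 0 := by
  have hD := hy.opn
  haveI : ProperSpace V := FiniteDimensional.proper ℂ V
  obtain ⟨r, hr, hrD⟩ := Metric.isOpen_iff.1 hD p hp
  have hQ : closedBall p (r / 2) ⊆ D := (closedBall_subset_ball (by linarith)).trans hrD
  obtain ⟨_, hb, _⟩ := h1 V D hy X φ hX h
  obtain ⟨C, hC⟩ := hb (closedBall p (r / 2)) hQ (isCompact_closedBall _ _)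
  have hbound : ∀ t : ℝ, |t| ≤ 1 →
      ‖fderiv ℂ (φ (0 + t)) p - fderiv ℂ (φ 0) p - t • fderiv ℂ X p‖ ≤ C * t ^ 2 / (r / 2) := by
    intro t ht
    have hsub : ball p (r / 2) ⊆ D := ball_subset_closedBall.trans hQ
    have hφd : ∀ x ∈ D, DifferentiableAt ℂ (φ t) x := fun x hx =>
      (h.dif t x hx).differentiableAt (hD.mem_nhds hx)
    have hXd : ∀ x ∈ D, DifferentiableAt ℂ X x := fun x hx =>
      (hX x hx).differentiableAt (hD.mem_nhds hx)
    have hE : HasFDerivAt (fun x => φ t x - x - t • X x)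
        (fderiv ℂ (φ t) p - ContinuousLinearMap.id ℂ V - t • fderiv ℂ X p) p :=
      (((hφd p hp).hasFDerivAt).sub (hasFDerivAt_id p)).sub
        (((hXd p hp).hasFDerivAt).const_smul t)
    have hEd : DifferentiableOn ℂ (fun x => φ t x - x - t • X x) (ball p (r / 2)) := by
      intro x hx
      exact (((hφd x (hsub hx)).sub differentiableAt_id).sub
        ((hXd x (hsub hx)).const_smul t)).differentiableWithinAt
    have h2 := Pool.Agent.Lib.Osgood.norm_fderiv_le (f := fun x => φ t x - x - t • X x)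
      (z := p) (R := r / 2) (M := C * t ^ 2) (by linarith) hEd
      (fun x hx => hC t ht x (ball_subset_closedBall hx))
    rw [hE.fderiv] at h2
    rw [zero_add, Lzero hD h hp]
    exact h2
  rw [hasDerivAt_iff_isLittleO_nhds_zero]
  have hO : (fun t : ℝ => fderiv ℂ (φ (0 + t)) p - fderiv ℂ (φ 0) p - t • fderiv ℂ X p)
      =O[𝓝 0] fun t : ℝ => t ^ 2 := by
    refine Asymptotics.IsBigO.of_bound (C / (r / 2)) ?_
    have h5 : ∀ᶠ t : ℝ in 𝓝 0, |t| ≤ 1 := by
      filter_upwards [ball_mem_nhds (0 : ℝ) one_pos] with t ht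
      rw [mem_ball, dist_zero_right, Real.norm_eq_abs] at ht
      exact ht.le
    filter_upwards [h5] with t ht
    refine (hbound t ht).trans (le_of_eq ?_)
    rw [Real.norm_eq_abs, abs_of_nonneg (sq_nonneg t)]
    ring
  exact hO.trans_isLittleO (Asymptotics.isLittleO_pow_id (by norm_num))

private theorem Lder [FiniteDimensional ℂ V] (h1 : S_FlB) {D : Set V} (hy : Hyp D) {X : V → V}
    {φ : ℝ → V → V} (hX : DifferentiableOn ℂ X D) (h : Flow D X φ) {p : V} (hp : p ∈ D)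
    (hf : ∀ t, φ t p = p) (t : ℝ) :
    HasDerivAt (fun t : ℝ => fderiv ℂ (φ t) p) (fderiv ℂ (φ t) p * fderiv ℂ X p) t := by
  have h0 := (Lder0 h1 hy hX h hp).const_mul (fderiv ℂ (φ t) p)
  have h2 : HasDerivAt (fun s : ℝ => fderiv ℂ (φ t) p * fderiv ℂ (φ s) p)
      (fderiv ℂ (φ t) p * fderiv ℂ X p) (t - t) := by
    rw [sub_self]
    exact h0
  have h3 := h2.comp_sub_const t t
  refine h3.congr_of_eventuallyEq (Eventually.of_forall fun s => ?_)
  have h4 : s = t + (s - t) := by ring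
  show fderiv ℂ (φ s) p = fderiv ℂ (φ t) p * fderiv ℂ (φ (s - t)) p
  rw [← Lmul hy.opn h hp hf, ← h4]

private theorem Lexp [FiniteDimensional ℂ V] (h1 : S_FlB) {D : Set V} (hy : Hyp D) {X : V → V}
    {φ : ℝ → V → V} (hX : DifferentiableOn ℂ X D) (h : Flow D X φ) {p : V} (hp : p ∈ D)
    (hf : ∀ t, φ t p = p) (t : ℝ) :
    fderiv ℂ (φ t) p = NormedSpace.exp ((t : ℂ) • fderiv ℂ X p) := by
  haveI : CompleteSpace V := FiniteDimensional.complete ℂ V
  set A := fderiv ℂ X p with hA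
  have hG : ∀ s : ℝ, HasDerivAt
      (fun s : ℝ => fderiv ℂ (φ s) p * NormedSpace.exp (s • (-A))) 0 s := by
    intro s
    have h2 := (Lder h1 hy hX h hp hf s).mul (hasDerivAt_exp_smul_const' (𝕂 := ℝ) (-A) s)
    have h3 : fderiv ℂ (φ s) p * A * NormedSpace.exp (s • (-A)) +
        fderiv ℂ (φ s) p * (-A * NormedSpace.exp (s • (-A))) = 0 := by
      rw [neg_mul, mul_neg, mul_assoc, add_neg_cancel]
    rw [h3] at h2
    exact h2
  have hc : fderiv ℂ (φ t) p * NormedSpace.exp (t • (-A)) =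
      fderiv ℂ (φ 0) p * NormedSpace.exp ((0 : ℝ) • (-A)) :=
    is_const_of_deriv_eq_zero
      (f := fun s : ℝ => fderiv ℂ (φ s) p * NormedSpace.exp (s • (-A)))
      (fun s => (hG s).differentiableAt) (fun s => (hG s).deriv) t 0
  rw [Lzero hy.opn h hp, zero_smul, NormedSpace.exp_zero, mul_one] at hc
  have h4 : NormedSpace.exp (t • (-A)) * NormedSpace.exp (t • A) = 1 := by
    let +nondep : NormedAlgebra ℚ (V →L[ℂ] V) := .restrictScalars ℚ ℂ (V →L[ℂ] V)
    rw [← NormedSpace.exp_add_of_commute, smul_neg, neg_add_cancel, NormedSpace.exp_zero]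
    rw [smul_neg]
    exact (Commute.refl (t • A)).neg_left
  rw [Complex.coe_smul]
  calc fderiv ℂ (φ t) p = fderiv ℂ (φ t) p * (NormedSpace.exp (t • (-A)) *
        NormedSpace.exp (t • A)) := by rw [h4, mul_one]
    _ = NormedSpace.exp (t • A) := by rw [← mul_assoc, hc, one_mul]

end IsoAux

theorem tIso (h1 : S_FlB) (h2 : S_CdB) : S_Iso := by
  intro V _ _ _ D hy X φ hX h p hp hXp
  have hD := hy.opn
  have hf : ∀ t, φ t p = p := IsoAux.fix hD h hp hXp
  refine ⟨hf, IsoAux.Lexp h1 hy hX h hp hf, ?_⟩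
  obtain ⟨r0, hr0, hbc⟩ := hy.bc
  obtain ⟨Q', hQ'D, hQ'c, hQ'⟩ := hbc {p} (singleton_subset_iff.2 hp) isCompact_singleton
  obtain ⟨r, hr, hrD⟩ := Metric.isOpen_iff.1 hD p hp
  obtain ⟨_, _, hinv, hlip, _⟩ := h2 V D hD
  obtain ⟨M0, hM0⟩ := hQ'c.isBounded.exists_norm_le
  set ρ : ℝ := min (r / 2) (r0 * r / 2) with hρ
  have hρ0 : 0 < ρ := lt_min (by linarith) (by positivity)
  refine ⟨M0 / ρ, fun t => ?_⟩
  rw [← IsoAux.Lexp h1 hy hX h hp hf]
  have hsub : ball p ρ ⊆ D := by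
    refine (ball_subset_ball ?_).trans hrD
    have := min_le_left (r / 2) (r0 * r / 2)
    linarith
  refine Pool.Agent.Lib.Osgood.norm_fderiv_le hρ0 ((h.dif t).mono hsub) ?_
  intro y hy'
  have hyD := hsub hy'
  have hn : ‖p - y‖ < ρ := by
    rw [← dist_eq_norm, dist_comm]
    exact hy'
  have h3 : cd D p y ≤ r0 := by
    have h4 := hlip p r hr hrD p (mem_ball_self (by linarith)) y
      (ball_subset_ball (min_le_left _ _) hy')
    have h5 : 2 / r * ‖p - y‖ ≤ 2 / r * (r0 * r / 2) := by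
      refine mul_le_mul_of_nonneg_left (hn.le.trans (min_le_right _ _)) (by positivity)
    have h6 : 2 / r * (r0 * r / 2) = r0 := by
      field_simp
    linarith
  have h7 := hinv (φ t) (h.dif t) (h.maps t) p hp y hyD
  rw [hf t] at h7
  exact hM0 _ (hQ' p (mem_singleton p) _ (h.maps t hyD) (h7.trans h3))

end KVB
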