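import Pool.Agent.Lib.KV.B.SpecA

/-!
# KV (MP_64edc4_ag), part B, block A: iterates stay in compact sets (task Itr)
-/

set_option autoImplicit false

open Set Filter Topology Metric

namespace KVB

open KP

namespace ItrAux

variable {V : Type} [NormedAddCommGroup V] [NormedSpace ℂ V]

/-- The increasing sequence of compact sets. -/
private theorem exists_seq (D : Set V) (r0 : ℝ)
    (hbc : ∀ Q ⊆ D, IsCompact Q → ∃ Q' ⊆ D, IsCompact Q' ∧
      ∀ x ∈ Q, ∀ y ∈ D, cd D x y ≤ r0 → y ∈ Q') (Q : Set V) (hQ : Q ⊆ D) (hQc : IsCompact Q) :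
    ∃ f : ℕ → Set V, f 0 = Q ∧ ∀ i, f i ⊆ D ∧ IsCompact (f i) ∧ f i ⊆ f (i + 1) ∧
      ∀ x ∈ f i, ∀ y ∈ D, cd D x y ≤ r0 → y ∈ f (i + 1) := by
  classical
  have hstep : ∀ P : {P : Set V // P ⊆ D ∧ IsCompact P}, ∃ P' : {P : Set V // P ⊆ D ∧ IsCompact P},
      P.1 ⊆ P'.1 ∧ ∀ x ∈ P.1, ∀ y ∈ D, cd D x y ≤ r0 → y ∈ P'.1 := by
    rintro ⟨P, hP, hPc⟩
    obtain ⟨Q', hQ', hQ'c, h⟩ := hbc P hP hPc
    exact ⟨⟨P ∪ Q', union_subset hP hQ', hPc.union hQ'c⟩, subset_union_left,
      fun x hx y hy hxy => Or.inr (h x hx y hy hxy)⟩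
  choose st hst using hstep
  refine ⟨fun i => (st^[i] ⟨Q, hQ, hQc⟩).1, rfl, fun i => ⟨(st^[i] ⟨Q, hQ, hQc⟩).2.1,
    (st^[i] ⟨Q, hQ, hQc⟩).2.2, ?_, ?_⟩⟩
  · have := (hst (st^[i] ⟨Q, hQ, hQc⟩)).1
    simpa only [Function.iterate_succ_apply'] using this
  · have := (hst (st^[i] ⟨Q, hQ, hQc⟩)).2
    simpa only [Function.iterate_succ_apply'] using this

end ItrAux

open ItrAux in
theorem tItr (h1 : S_CdB) : S_Itr := by
  intro V _ _ D hD
  obtain ⟨r0, hr0, hbc⟩ := hD.bc
  obtain ⟨hA, hB, hC, -, -⟩ := h1 V D hD.opn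
  refine ⟨r0, hr0, fun Q hQ hQc T => ?_⟩
  obtain ⟨f, hf0, hf⟩ := exists_seq D r0 hbc Q hQ hQc
  have hmono : Monotone f := monotone_nat_of_le_succ fun i => (hf i).2.2.1
  obtain ⟨M, hM⟩ := exists_nat_ge (2 * |T| / r0 + 1)
  refine ⟨f M, (hf M).1, (hf M).2.1, hf0 ▸ hmono (Nat.zero_le M), ?_⟩
  intro g hg hgm x hx hxr n hn
  have hxD : x ∈ D := hQ hx
  have hit : ∀ i, g^[i] x ∈ D := fun i => (hgm.iterate i) hxD
  set δ := cd D x (g x) with hδ
  have hδ0 : 0 ≤ δ := (hA x hxD (g x) (hgm hxD)).1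
  have hstep : ∀ i, cd D (g^[i] x) (g^[i + 1] x) ≤ δ := by
    intro i
    induction i with
    | zero => simp [hδ]
    | succ i ih =>
      have := hC g hg hgm _ (hit i) _ (hit (i + 1))
      rw [← Function.iterate_succ_apply' g i x, ← Function.iterate_succ_apply' g (i + 1) x] at this
      exact this.trans ih
  have hdist : ∀ i k, cd D (g^[i] x) (g^[i + k] x) ≤ k * δ := by
    intro i k
    induction k with
    | zero => simp [(hA _ (hit i) _ (hit i)).2.2.2]
    | succ k ih =>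
      have h2 := hB _ (hit i) _ (hit (i + k)) _ (hit (i + k + 1))
      have h3 := hstep (i + k)
      have h4 : ((k + 1 : ℕ) : ℝ) * δ = k * δ + δ := by push_cast; ring
      rw [h4, ← add_assoc]
      linarith
  have hx0 : x ∈ f 0 := hf0 ▸ hx
  have hM1 : 1 ≤ M := by
    have : (1 : ℝ) ≤ M := le_trans (by have := abs_nonneg T; have : 0 ≤ 2 * |T| / r0 := by positivity
                                       linarith) hM
    exact_mod_cast this
  rcases hδ0.eq_or_lt with h0 | hpos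
  · -- the point does not move
    have h2 := hdist 0 n
    rw [← h0, mul_zero] at h2
    have h3 : g^[n] x ∈ f 1 := (hf 0).2.2.2 x hx0 _ (hit n) (by simpa using h2.trans hr0.le)
    exact hmono hM1 h3
  · set b := ⌊r0 / δ⌋₊ with hb
    have hq1 : 1 ≤ r0 / δ := (one_le_div hpos).2 hxr
    have hb1 : 1 ≤ b := Nat.one_le_iff_ne_zero.2 (Nat.floor_pos.2 hq1).ne'
    have hbR : (1 : ℝ) ≤ b := by exact_mod_cast hb1
    have hble : (b : ℝ) * δ ≤ r0 := by
      have := Nat.floor_le (by positivity : 0 ≤ r0 / δ)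
      rw [← hb] at this
      calc (b : ℝ) * δ ≤ r0 / δ * δ := mul_le_mul_of_nonneg_right this hδ0
        _ = r0 := div_mul_cancel₀ _ hpos.ne'
    have hbge : r0 ≤ 2 * b * δ := by
      have h5 := Nat.lt_floor_add_one (r0 / δ)
      rw [← hb, div_lt_iff₀ hpos] at h5
      nlinarith
    have key : ∀ s j, j ≤ s * b → g^[j] x ∈ f s := by
      intro s
      induction s with
      | zero =>
        intro j hj
        have : j = 0 := by omega
        subst this
        exact hx0
      | succ s ih =>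
        intro j hj
        by_cases hjs : j ≤ s * b
        · exact (hf s).2.2.1 (ih j hjs)
        · have hj2 : s * b + (j - s * b) = j := by omega
          have hk : j - s * b ≤ b := by
            rw [Nat.succ_mul] at hj
            omega
          have h6 := hdist (s * b) (j - s * b)
          rw [hj2] at h6
          have hkR : ((j - s * b : ℕ) : ℝ) ≤ b := by exact_mod_cast hk
          refine (hf s).2.2.2 _ (ih (s * b) le_rfl) _ (hit j) (h6.trans ?_)
          exact (mul_le_mul_of_nonneg_right hkR hδ0).trans hble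
    have hMn : n ≤ M * b := by
      have h7 : (n : ℝ) * δ ≤ |T| := hn.trans (le_abs_self T)
      have h8 : 2 * |T| + r0 ≤ M * r0 := by
        have := mul_le_mul_of_nonneg_right hM hr0.le
        have h9 : (2 * |T| / r0 + 1) * r0 = 2 * |T| + r0 := by field_simp
        rwa [h9] at this
      have h10 : (n : ℝ) * δ ≤ (M * b) * δ := by
        have h11 : (M : ℝ) * r0 ≤ M * (2 * b * δ) := mul_le_mul_of_nonneg_left hbge (by positivity)
        nlinarith
      have h12 : (n : ℝ) ≤ M * b := le_of_mul_le_mul_right h10 hpos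
      exact_mod_cast h12
    exact key M n hMn

end KVB
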