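import Pool.Agent.Lib.KV.B.SpecA

/-!
# KV, part B, module LA1: bounded one-parameter groups of linear maps
-/

set_option autoImplicit false

open Set Filter Topology Metric

namespace KVB

open KP

private theorem la1Exp {R : Type} [NormedRing R] [NormedAlgebra ℂ R] (x : R) (h : x * x = 0) :
    NormedSpace.exp x = 1 + x := by
  rw [NormedSpace.exp_eq_tsum ℂ]
  simp only
  rw [tsum_eq_sum (s := Finset.range 2)]
  · simp [Finset.sum_range_succ]
  · intro n hn
    obtain ⟨m, rfl⟩ : ∃ m, n = m + 2 := ⟨n - 2, by rw [Finset.mem_range] at hn; omega⟩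
    rw [pow_add, pow_two x, h, mul_zero, smul_zero]

theorem tLA1 : S_LA1 := by
  intro V _ _ _
  have : CompleteSpace V := FiniteDimensional.complete ℂ V
  refine ⟨?_, ?_⟩
  · rintro L ⟨M, hM⟩ ⟨M', hM'⟩
    have hd : ∀ ζ : ℂ, HasDerivAt (fun u : ℂ => NormedSpace.exp (u • L))
        (NormedSpace.exp (ζ • L) * L) ζ := fun ζ => hasDerivAt_exp_smul_const L ζ
    have hdiff : Differentiable ℂ (fun u : ℂ => NormedSpace.exp (u • L)) :=
      fun ζ => (hd ζ).differentiableAt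
    have hb : Bornology.IsBounded (range (fun u : ℂ => NormedSpace.exp (u • L))) := by
      rw [isBounded_iff_forall_norm_le]
      refine ⟨M * M', ?_⟩
      rintro _ ⟨ζ, rfl⟩
      have h1 : ζ • L = (ζ.re : ℂ) • L + (ζ.im : ℂ) • (Complex.I • L) := by
        rw [smul_smul, ← add_smul, Complex.re_add_im]
      have h2 : Commute ((ζ.re : ℂ) • L) ((ζ.im : ℂ) • (Complex.I • L)) :=
        ((Commute.refl L).smul_right Complex.I).smul_right _ |>.smul_left _
      show ‖NormedSpace.exp (ζ • L)‖ ≤ M * M'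
      let _ : NormedAlgebra ℚ (V →L[ℂ] V) := NormedAlgebra.restrictScalars ℚ ℂ (V →L[ℂ] V)
      rw [h1, NormedSpace.exp_add_of_commute h2]
      exact (norm_mul_le _ _).trans (mul_le_mul (hM _) (hM' _) (norm_nonneg _)
        ((norm_nonneg _).trans (hM 0)))
    have hc : (fun u : ℂ => NormedSpace.exp (u • L)) = fun _ => NormedSpace.exp ((0 : ℂ) • L) :=
      funext fun u => hdiff.apply_eq_apply_of_bounded hb u 0
    have h3 := hd 0
    rw [hc] at h3
    have h4 := h3.unique (hasDerivAt_const (0 : ℂ) (NormedSpace.exp ((0 : ℂ) • L)))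
    rw [zero_smul, NormedSpace.exp_zero, one_mul] at h4
    exact h4
  · rintro N hN ⟨M, hM⟩
    by_contra hne
    have hpos : 0 < ‖N‖ := norm_pos_iff.2 hne
    have h1 : ∀ t : ℝ, |t| * ‖N‖ ≤ M + ‖(1 : V →L[ℂ] V)‖ := by
      intro t
      have h2 : NormedSpace.exp ((t : ℂ) • N) = 1 + (t : ℂ) • N := by
        apply la1Exp
        rw [smul_mul_smul_comm, hN, smul_zero]
      have h3 : (t : ℂ) • N = NormedSpace.exp ((t : ℂ) • N) - 1 := by
        rw [h2, add_sub_cancel_left]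
      calc |t| * ‖N‖ = ‖(t : ℂ) • N‖ := by
            rw [norm_smul, Complex.norm_real, Real.norm_eq_abs]
        _ = ‖NormedSpace.exp ((t : ℂ) • N) - 1‖ := by rw [← h3]
        _ ≤ ‖NormedSpace.exp ((t : ℂ) • N)‖ + ‖(1 : V →L[ℂ] V)‖ := norm_sub_le _ _
        _ ≤ M + ‖(1 : V →L[ℂ] V)‖ := by
            have := hM t
            linarith
    have h4 := h1 ((M + ‖(1 : V →L[ℂ] V)‖ + 1) / ‖N‖)
    have h5 : (M + ‖(1 : V →L[ℂ] V)‖ + 1) ≤
        |(M + ‖(1 : V →L[ℂ] V)‖ + 1) / ‖N‖| * ‖N‖ := by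
      calc (M + ‖(1 : V →L[ℂ] V)‖ + 1) = (M + ‖(1 : V →L[ℂ] V)‖ + 1) / ‖N‖ * ‖N‖ := by
            rw [div_mul_cancel₀ _ hpos.ne']
        _ ≤ _ := mul_le_mul_of_nonneg_right (le_abs_self _) hpos.le
    linarith

end KVB
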