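import Pool.Agent.Lib.KV.B.SpecA

/-!
# KV, part B, block A, module `Lin`: the complete fields form a real vector space
-/

set_option autoImplicit false

open Set Filter Topology Metric

namespace KVB

open KP

theorem tLin (h1 : S_Eul) (h2 : S_FlB) : S_Lin := by
  intro V _ _ _ D hH X hX
  have : CompleteSpace V := FiniteDimensional.complete ℂ V
  have : ProperSpace V := FiniteDimensional.proper ℂ V
  obtain ⟨hX1, φ, hφ⟩ := hX
  constructor
  · intro r
    refine ⟨hX1.const_smul (r : ℂ), fun t x => φ (r * t) x, ?_⟩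
    refine ⟨fun t => hφ.dif _, fun t => hφ.maps _, fun x hx => ?_, fun s t x hx => ?_,
      fun x hx t => ?_⟩
    · show φ (r * 0) x = x
      rw [mul_zero, hφ.zero x hx]
    · show φ (r * (s + t)) x = φ (r * s) (φ (r * t) x)
      rw [mul_add, hφ.add _ _ x hx]
    · have h3 := (hφ.der x hx (r * t)).scomp t ((hasDerivAt_id t).const_mul r)
      rw [mul_one] at h3
      show HasDerivAt (fun s => φ (r * s) x) ((r : ℂ) • X (φ (r * t) x)) t
      rw [Complex.coe_smul]
      exact h3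
  · rintro Y ⟨hY1, ψ, hψ⟩
    have ht0 : Tendsto (fun j : ℕ => 1 / ((j : ℝ) + 1)) atTop (𝓝 0) :=
      tendsto_one_div_add_atTop_nhds_zero_nat
    refine h1 V D hH (fun j x => φ (1 / ((j : ℝ) + 1)) (ψ (1 / ((j : ℝ) + 1)) x))
      (fun j x => ψ (-(1 / ((j : ℝ) + 1))) (φ (-(1 / ((j : ℝ) + 1))) x))
      (fun j => 1 / ((j : ℝ) + 1)) (fun x => X x + Y x)
      (fun j => (hφ.aut _).comp (hψ.aut _)) (fun j => Nat.one_div_pos_of_nat) ht0 ?_
    intro Q hQD hQ
    obtain ⟨-, hφb, -⟩ := h2 V D hH X φ hX1 hφ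
    obtain ⟨hψa, hψb, -⟩ := h2 V D hH Y ψ hY1 hψ
    obtain ⟨Q', hQ'D, hQ', hmem⟩ := hψa Q hQD hQ 1
    obtain ⟨C, hC⟩ := hψb Q hQD hQ
    obtain ⟨C', hC'⟩ := hφb Q' hQ'D hQ'
    have hQQ' : Q ⊆ Q' := fun x hx => by
      have := hmem 0 (by simp) x hx
      rwa [hψ.zero x (hQD hx)] at this
    have huc : UniformContinuousOn X Q' :=
      hQ'.uniformContinuousOn_of_continuous (hX1.continuousOn.mono hQ'D)
    obtain ⟨M, hM⟩ : ∃ M, ∀ x ∈ Q, ‖Y x‖ ≤ M :=
      hQ.exists_bound_of_continuousOn (hY1.continuousOn.mono hQD)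
    rw [Metric.tendstoUniformlyOn_iff]
    intro ε hε
    obtain ⟨δ, hδ, hδX⟩ := Metric.uniformContinuousOn_iff.1 huc (ε / 2) (by positivity)
    have e1 : ∀ᶠ j : ℕ in atTop, (|C| + |C'|) * (1 / ((j : ℝ) + 1)) < ε / 2 := by
      have := ht0.const_mul (|C| + |C'|)
      rw [mul_zero] at this
      exact this.eventually (gt_mem_nhds (by positivity))
    have e2 : ∀ᶠ j : ℕ in atTop, |C| * (1 / ((j : ℝ) + 1)) ^ 2 + (1 / ((j : ℝ) + 1)) * |M| < δ := by
      have := ((ht0.pow 2).const_mul |C|).add (ht0.mul_const |M|)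
      rw [zero_pow two_ne_zero, mul_zero, zero_mul, add_zero] at this
      exact this.eventually (gt_mem_nhds hδ)
    filter_upwards [e1, e2] with j hj1 hj2 x hx
    have htp : (0 : ℝ) < 1 / ((j : ℝ) + 1) := Nat.one_div_pos_of_nat
    have ht1 : |1 / ((j : ℝ) + 1)| ≤ 1 := by
      rw [abs_of_pos htp]
      exact (div_le_one (by positivity)).2 (by
        have : (0 : ℝ) ≤ j := Nat.cast_nonneg j
        linarith)
    generalize 1 / ((j : ℝ) + 1) = τ at *
    have hyQ' : ψ τ x ∈ Q' := hmem τ ht1 x hx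
    have b1 := hC τ ht1 x hx
    have b2 := hC' τ ht1 _ hyQ'
    generalize ψ τ x = y at *
    have b3 : dist y x < δ := by
      rw [dist_eq_norm]
      calc ‖y - x‖ = ‖(y - x - τ • Y x) + τ • Y x‖ := by congr 1; abel
        _ ≤ C * τ ^ 2 + τ * M := by
           refine (norm_add_le _ _).trans (add_le_add b1 ?_)
           rw [norm_smul, Real.norm_of_nonneg htp.le]
           exact mul_le_mul_of_nonneg_left (hM x hx) htp.le
        _ ≤ |C| * τ ^ 2 + τ * |M| :=
          add_le_add (mul_le_mul_of_nonneg_right (le_abs_self C) (sq_nonneg τ))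
            (mul_le_mul_of_nonneg_left (le_abs_self M) htp.le)
        _ < δ := hj2
    have b4 : ‖X y - X x‖ < ε / 2 := by
      have := hδX y hyQ' x (hQQ' hx) b3
      rwa [dist_eq_norm] at this
    rw [dist_comm, dist_eq_norm]
    have e3 : τ⁻¹ • (φ τ y - x) - (X x + Y x) =
        τ⁻¹ • ((φ τ y - y - τ • X y) + (y - x - τ • Y x)) + (X y - X x) := by
      simp only [smul_add, smul_sub, smul_smul, inv_mul_cancel₀ htp.ne', one_smul]
      abel
    rw [e3]
    have b5 : ‖τ⁻¹ • ((φ τ y - y - τ • X y) + (y - x - τ • Y x))‖ ≤ (|C| + |C'|) * τ := by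
      rw [norm_smul, norm_inv, Real.norm_of_nonneg htp.le]
      have b6 : ‖(φ τ y - y - τ • X y) + (y - x - τ • Y x)‖ ≤ (|C| + |C'|) * τ ^ 2 := by
        refine (norm_add_le _ _).trans ?_
        have c1 := mul_le_mul_of_nonneg_right (le_abs_self C) (sq_nonneg τ)
        have c2 := mul_le_mul_of_nonneg_right (le_abs_self C') (sq_nonneg τ)
        linarith
      calc τ⁻¹ * ‖(φ τ y - y - τ • X y) + (y - x - τ • Y x)‖
          ≤ τ⁻¹ * ((|C| + |C'|) * τ ^ 2) := mul_le_mul_of_nonneg_left b6 (inv_nonneg.2 htp.le)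
        _ = (|C| + |C'|) * τ := by
          field_simp
    calc ‖τ⁻¹ • ((φ τ y - y - τ • X y) + (y - x - τ • Y x)) + (X y - X x)‖
        ≤ (|C| + |C'|) * τ + ‖X y - X x‖ := (norm_add_le _ _).trans (add_le_add b5 le_rfl)
      _ < ε := by linarith

end KVB
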